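import Mathlib

/-! Polynomials on the curve `y² = 4 x³ - a x - b`. -/

set_option autoImplicit false

open Polynomial

namespace Pool.Agent.N154.AR

/-- the cubic polynomial -/
noncomputable def Qc {A : Type} [CommRing A] (a b : A) : A[X] :=
  C 4 * X ^ 3 - C a * X - C b

theorem Qc_eval {A : Type} [CommRing A] (a b x : A) :
    (Qc a b).eval x = 4 * x ^ 3 - a * x - b := by
  simp [Qc]

theorem Qc_natDegree {A : Type} [Field A] [CharZero A] (a b : A) : (Qc a b).natDegree = 3 := by
  unfold Qc
  compute_degree!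

theorem Qc_ne {A : Type} [Field A] [CharZero A] (a b : A) : Qc a b ≠ 0 := fun h => by
  have := Qc_natDegree a b
  rw [h] at this
  simp at this

/-- the equation of the curve -/
noncomputable def Wq {A : Type} [CommRing A] (a b : A) : A[X][X] := X ^ 2 - C (Qc a b)

theorem Wq_monic {A : Type} [CommRing A] [Nontrivial A] (a b : A) : (Wq a b).Monic :=
  monic_X_pow_sub_C _ two_ne_zero

theorem Wq_natDegree {A : Type} [CommRing A] [Nontrivial A] (a b : A) : (Wq a b).natDegree = 2 :=
  natDegree_X_pow_sub_C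

theorem Wq_map {A A' : Type} [CommRing A] [CommRing A'] (g : A →+* A') (a b : A) :
    (Wq a b).map (mapRingHom g) = Wq (g a) (g b) := by
  have h : g 4 = 4 := map_ofNat g 4
  simp [Wq, Qc, h]

theorem Wq_eval {A : Type} [CommRing A] (a b x y : A) :
    evalEval x y (Wq a b) = y ^ 2 - (4 * x ^ 3 - a * x - b) := by
  simp [Wq, evalEval, Qc_eval]

/-- polynomials of degree one in `y` -/
theorem rem_form {A : Type} [CommRing A] [Nontrivial A] (a b : A) (D : A[X][X]) :
    D %ₘ Wq a b = C ((D %ₘ Wq a b).coeff 0) + X * C ((D %ₘ Wq a b).coeff 1) := by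
  have h1 : (D %ₘ Wq a b).degree < (2 : ℕ) := by
    have := degree_modByMonic_lt D (Wq_monic a b)
    rwa [degree_eq_natDegree (Wq_monic a b).ne_zero, Wq_natDegree] at this
  set r := D %ₘ Wq a b
  have h2 : r.degree ≤ (1 : ℕ) := by
    rw [degree_le_iff_coeff_zero]
    intro m hm
    exact coeff_eq_zero_of_degree_lt (lt_of_lt_of_le h1 (by exact_mod_cast hm))
  have h3 := eq_X_add_C_of_degree_le_one (by exact_mod_cast h2)
  conv_lhs => rw [h3]
  ring

theorem eval_rem {A : Type} [CommRing A] (a b x y : A) (h : y ^ 2 = 4 * x ^ 3 - a * x - b)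
    (D : A[X][X]) : evalEval x y D = evalEval x y (D %ₘ Wq a b) := by
  nontriviality A
  conv_lhs => rw [← modByMonic_add_div D (Wq a b)]
  rw [evalEval_add, evalEval_mul, Wq_eval, h, sub_self, zero_mul, add_zero]

theorem eval_rem' {A : Type} [CommRing A] (a b x y : A) (h : y ^ 2 = 4 * x ^ 3 - a * x - b)
    (D : A[X][X]) : evalEval x y D =
      ((D %ₘ Wq a b).coeff 0).eval x + y * ((D %ₘ Wq a b).coeff 1).eval x := by
  nontriviality A
  rw [eval_rem a b x y h D]
  conv_lhs => rw [rem_form a b D]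
  simp [evalEval]
  ring

/-- `Q` is not a square -/
theorem norm_ne {A : Type} [Field A] [CharZero A] (a b : A) {U V : A[X]}
    (h : U ^ 2 - Qc a b * V ^ 2 = 0) : U = 0 ∧ V = 0 := by
  by_cases hV : V = 0
  · rw [hV] at h
    refine ⟨?_, hV⟩
    have : U ^ 2 = 0 := by linear_combination h
    exact pow_eq_zero_iff two_ne_zero |>.1 this
  · exfalso
    have h1 : U ^ 2 = Qc a b * V ^ 2 := by linear_combination h
    have h2 := congrArg natDegree h1
    rw [natDegree_pow, natDegree_mul (Qc_ne a b) (pow_ne_zero _ hV), natDegree_pow,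
      Qc_natDegree] at h2
    omega

/-- a function on the curve which is not zero has finitely many zeros -/
theorem zeros_fin {A : Type} [Field A] [CharZero A] (a b : A) {D : A[X][X]}
    (hD : D %ₘ Wq a b ≠ 0) {x y : ℕ → A} (hx : Function.Injective x)
    (hxy : ∀ k, y k ^ 2 = 4 * x k ^ 3 - a * x k - b) :
    {k | evalEval (x k) (y k) D = 0}.Finite := by
  classical
  set U := (D %ₘ Wq a b).coeff 0 with hU
  set V := (D %ₘ Wq a b).coeff 1 with hV
  have h1 : U ^ 2 - Qc a b * V ^ 2 ≠ 0 := by
    intro h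
    obtain ⟨h2, h3⟩ := norm_ne a b h
    apply hD
    rw [rem_form a b D, ← hU, ← hV, h2, h3]
    simp
  have h2 : {k | evalEval (x k) (y k) D = 0} ⊆
      x ⁻¹' ((U ^ 2 - Qc a b * V ^ 2).roots.toFinset : Set A) := by
    intro k hk
    have hk' : U.eval (x k) + y k * V.eval (x k) = 0 := by
      rw [← eval_rem' a b _ _ (hxy k) D]
      exact hk
    simp only [Set.mem_preimage, Finset.mem_coe, Multiset.mem_toFinset]
    rw [mem_roots h1, IsRoot.def, eval_sub, eval_pow, eval_mul, eval_pow, Qc_eval, ← hxy k]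
    have h3 : U.eval (x k) = -(y k * V.eval (x k)) := by linear_combination hk'
    rw [h3]
    ring
  exact ((Finset.finite_toSet _).preimage hx.injOn).subset h2

end Pool.Agent.N154.AR
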