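import Pool.Agent.H37PG.Gal

/-! Automorphisms of algebraically closed fields: the fixed field, and descent of vectors. -/

set_option autoImplicit false

namespace Pool.Agent.N154.AR

/-- automorphisms extend -/
theorem extend_aut {M F : Type} [Field M] [Field F] [Algebra M F] [IsAlgClosed F] (e : M ≃+* M) :
    ∃ σ : F ≃+* F, ∀ m, σ (algebraMap M F m) = algebraMap M F (e m) := by
  classical
  obtain ⟨s, hs⟩ := exists_isTranscendenceBasis M F
  let _ := IsAlgClosed.isAlgClosure_of_transcendence_basis _ hs
  let E : Algebra.adjoin M (Set.range ((↑) : s → F)) ≃+*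
      Algebra.adjoin M (Set.range ((↑) : s → F)) :=
    (hs.1.aevalEquiv.symm.toRingEquiv).trans
      ((MvPolynomial.mapEquiv s e).trans hs.1.aevalEquiv.toRingEquiv)
  refine ⟨IsAlgClosure.equivOfEquiv F F E, fun m => ?_⟩
  have h1 := IsAlgClosure.equivOfEquiv_algebraMap F F E
    (algebraMap M (Algebra.adjoin M (Set.range ((↑) : s → F))) m)
  have h2 : E (algebraMap M (Algebra.adjoin M (Set.range ((↑) : s → F))) m) =
      algebraMap M _ (e m) := by
    change hs.1.aevalEquiv (MvPolynomial.map (e : M →+* M) (hs.1.aevalEquiv.symm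
      (algebraMap M _ m))) = _
    rw [AlgEquiv.commutes, MvPolynomial.algebraMap_eq, MvPolynomial.map_C,
      ← MvPolynomial.algebraMap_eq, AlgEquiv.commutes]
    rfl
  rw [h2] at h1
  exact h1

/-- the fixed field -/
theorem fixed_aut {k F : Type} [Field k] [CharZero k] [Field F] [Algebra k F] [IsAlgClosed F]
    {x : F} (h : ∀ σ : F ≃+* F, (∀ c : k, σ (algebraMap k F c) = algebraMap k F c) → σ x = x) :
    ∃ c : k, algebraMap k F c = x := by
  have hx : IsAlgebraic k x := by
    by_contra hx
    have hx' : Transcendental k x := hx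
    have hy : Transcendental k (x + 1) := by
      intro h1
      apply hx
      have h2 : IsAlgebraic k ((x + 1) - 1) := h1.sub isAlgebraic_one
      rwa [add_sub_cancel_right] at h2
    obtain ⟨σ, h1, h2⟩ := Pool.Agent.H37PG.exists_aut hx' hy
    rw [h σ h1] at h2
    exact one_ne_zero (left_eq_add.1 h2)
  let M := algebraicClosure k F
  have hgal : IsGalois k M := by
    have : IsAlgClosure k M := inferInstance
    have : Normal k M := IsAlgClosure.normal k M
    exact ⟨⟩
  have hxM : x ∈ M := mem_algebraicClosure_iff.2 hx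
  have h1 : ∀ g : M ≃ₐ[k] M, g ⟨x, hxM⟩ = ⟨x, hxM⟩ := by
    intro g
    obtain ⟨σ, hσ⟩ := extend_aut (M := M) (F := F) g.toRingEquiv
    have h2 := h σ (fun c => by
      have h3 : algebraMap k F c = algebraMap M F (algebraMap k M c) := rfl
      rw [h3, hσ]
      congr 1
      exact g.commutes c)
    have h3 : algebraMap M F (g ⟨x, hxM⟩) = algebraMap M F ⟨x, hxM⟩ := by
      have h4 := hσ ⟨x, hxM⟩
      exact h4.symm.trans h2
    exact (algebraMap M F).injective h3
  obtain ⟨c, hc⟩ := (InfiniteGalois.mem_range_algebraMap_iff_fixed (k := k) (K := M) ⟨x, hxM⟩).2 h1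
  exact ⟨c, congrArg (algebraMap M F) hc⟩

end Pool.Agent.N154.AR
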