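import Pool.Agent.Y729.FW.Surj

/-! Lattices with given invariants (the lattice part after `Pool.Agent.N101.ZP.Inj`, with fewer
imports). -/

set_option autoImplicit false

namespace Pool.Agent.N154.AR

open UpperHalfPlane ModularForm EisensteinSeries
open Pool.Agent.TH876.FH (jInv)

/-- the lattice `Ω (ℤ + ℤ ω)` -/
noncomputable def mkL (ω Ω : ℂ) (hω : 0 < ω.im) (hΩ : Ω ≠ 0) : PeriodPair where
  ω₁ := Ω
  ω₂ := Ω * ω
  indep := by
    rw [LinearIndependent.pair_iff]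
    intro s t h
    have h1 : Ω * ((s : ℂ) + t * ω) = 0 := by
      simp only [Complex.real_smul] at h
      linear_combination h
    have h2 := (mul_eq_zero.1 h1).resolve_left hΩ
    have h3 := congrArg Complex.im h2
    simp at h3
    have ht : t = 0 := h3.resolve_right hω.ne'
    refine ⟨?_, ht⟩
    rw [ht] at h2
    simpa using h2

/-- the elements of the lattice -/
noncomputable def latV (ω Ω : ℂ) (hω : 0 < ω.im) (hΩ : Ω ≠ 0) :
    (Fin 2 → ℤ) ≃ (mkL ω Ω hω hΩ).lattice :=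
  Equiv.ofBijective (fun v => ⟨Ω * (v 0 * ω + v 1), PeriodPair.mem_lattice.2 ⟨v 1, v 0, by
    show (v 1 : ℂ) * Ω + v 0 * (Ω * ω) = _
    ring⟩⟩) ⟨by
    intro v w h
    have h1 : Ω * ((v 0 : ℂ) * ω + v 1) = Ω * (w 0 * ω + w 1) := congrArg Subtype.val h
    have h2 := mul_left_cancel₀ hΩ h1
    have h3 := congrArg Complex.im h2
    simp at h3
    have h4 : v 0 = w 0 := by
      rcases h3 with h3 | h3
      · exact_mod_cast h3
      · exact absurd h3 hω.ne'
    have h5 : v 1 = w 1 := by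
      rw [h4] at h2
      have := add_left_cancel h2
      exact_mod_cast this
    funext i
    fin_cases i
    · exact h4
    · exact h5, by
    intro l
    obtain ⟨m, n, h⟩ := PeriodPair.mem_lattice.1 l.2
    refine ⟨![n, m], Subtype.ext ?_⟩
    rw [← h]
    show Ω * ((n : ℂ) * ω + m) = (m : ℂ) * Ω + n * (Ω * ω)
    ring⟩

lemma G_eq {ω Ω : ℂ} (hω : 0 < ω.im) (hΩ : Ω ≠ 0) {k : ℕ} (hk : 3 ≤ k) :
    (mkL ω Ω hω hΩ).G k = (Ω ^ k)⁻¹ * (2 * riemannZeta k * E hk ⟨ω, hω⟩) := by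
  have h1 := tsum_eisSummand_eq_riemannZeta_mul_eisensteinSeries hk (⟨ω, hω⟩ : ℍ)
  have h2 : E hk (⟨ω, hω⟩ : ℍ) = (1 / 2 : ℂ) * eisensteinSeries (N := 1) 0 k ⟨ω, hω⟩ := rfl
  have h3 : 2 * riemannZeta k * E hk (⟨ω, hω⟩ : ℍ) =
      ∑' v : Fin 2 → ℤ, eisSummand k v (⟨ω, hω⟩ : ℍ) := by
    rw [h1, h2]
    ring
  rw [h3, ← tsum_mul_left]
  unfold PeriodPair.G
  rw [← (latV ω Ω hω hΩ).tsum_eq]
  refine tsum_congr fun v => ?_
  have h4 : (((latV ω Ω hω hΩ) v : (mkL ω Ω hω hΩ).lattice) : ℂ) = Ω * (v 0 * ω + v 1) := rfl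
  rw [h4, mul_pow, mul_inv]
  congr 1
  unfold eisSummand
  rw [zpow_neg, zpow_natCast]

/-- a scaling -/
theorem exists_scale {a4 a6 b4 b6 D D' : ℂ} (hD : D ≠ 0) (hD' : D' ≠ 0)
    (h4 : a4 ^ 3 * D' = b4 ^ 3 * D) (h6 : a6 ^ 2 * D' = b6 ^ 2 * D)
    (hb : b4 ≠ 0 ∨ b6 ≠ 0) (ha : a4 ≠ 0 ∨ a6 ≠ 0) : ∃ u : ℂ, u ≠ 0 ∧ a4 = u ^ 4 * b4 ∧
      a6 = u ^ 6 * b6 := by
  by_cases hb4 : b4 = 0
  · have hb6 : b6 ≠ 0 := hb.resolve_left (by simp [hb4])
    have ha4 : a4 = 0 := by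
      rw [hb4] at h4
      simpa [hD'] using h4
    have ha6 : a6 ≠ 0 := ha.resolve_left (by simp [ha4])
    obtain ⟨u, hu⟩ := IsAlgClosed.exists_pow_nat_eq (a6 / b6) (n := 6) (by norm_num)
    refine ⟨u, ?_, by rw [ha4, hb4, mul_zero], by rw [hu]; field_simp⟩
    rintro rfl
    rw [zero_pow (by norm_num)] at hu
    exact (div_ne_zero ha6 hb6) hu.symm
  · by_cases hb6 : b6 = 0
    · have ha6 : a6 = 0 := by
        rw [hb6] at h6
        simpa [hD'] using h6
      have ha4 : a4 ≠ 0 := ha.resolve_right (by simp [ha6])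
      obtain ⟨u, hu⟩ := IsAlgClosed.exists_pow_nat_eq (a4 / b4) (n := 4) (by norm_num)
      refine ⟨u, ?_, by rw [hu]; field_simp, by rw [ha6, hb6, mul_zero]⟩
      rintro rfl
      rw [zero_pow (by norm_num)] at hu
      exact (div_ne_zero ha4 hb4) hu.symm
    · have ha4 : a4 ≠ 0 := by
        rintro rfl
        rw [zero_pow (by norm_num), zero_mul] at h4
        exact (mul_ne_zero (pow_ne_zero 3 hb4) hD) h4.symm
      have ha6 : a6 ≠ 0 := by
        rintro rfl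
        rw [zero_pow (by norm_num), zero_mul] at h6
        exact (mul_ne_zero (pow_ne_zero 2 hb6) hD) h6.symm
      obtain ⟨u, hu⟩ := IsAlgClosed.exists_pow_nat_eq ((a6 / b6) / (a4 / b4)) (n := 2)
        (by norm_num)
      have hab : (a4 / b4) ^ 3 = (a6 / b6) ^ 2 := by
        have e1 : (a4 / b4) ^ 3 = D / D' := by
          rw [div_pow, div_eq_div_iff (pow_ne_zero 3 hb4) hD']
          linear_combination h4
        have e2 : (a6 / b6) ^ 2 = D / D' := by
          rw [div_pow, div_eq_div_iff (pow_ne_zero 2 hb6) hD']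
          linear_combination h6
        rw [e1, e2]
      have hx : a4 / b4 ≠ 0 := div_ne_zero ha4 hb4
      have hy : a6 / b6 ≠ 0 := div_ne_zero ha6 hb6
      refine ⟨u, ?_, ?_, ?_⟩
      · rintro rfl
        rw [zero_pow (by norm_num)] at hu
        exact (div_ne_zero hy hx) hu.symm
      · have : u ^ 4 = a4 / b4 := by
          have e : u ^ 4 = (u ^ 2) ^ 2 := by ring
          rw [e, hu, div_pow, ← hab]
          field_simp
        rw [this]
        field_simp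
      · have : u ^ 6 = a6 / b6 := by
          have e : u ^ 6 = (u ^ 2) ^ 3 := by ring
          rw [e, hu, div_pow, hab]
          field_simp
        rw [this]
        field_simp

theorem zeta_six : riemannZeta 6 = (Real.pi : ℂ) ^ 6 / 945 := by
  have h := riemannZeta_two_mul_nat (k := 3) (by norm_num)
  have h6 : bernoulli 6 = 1 / 42 := by decide +kernel
  have e : riemannZeta (2 * ((3 : ℕ) : ℂ)) = riemannZeta 6 := by
    congr 1
    norm_num
  rw [e] at h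
  rw [h]
  simp only [show 2 * 3 = 6 by norm_num, h6, Nat.factorial]
  push_cast
  ring

/-- **Every cubic curve `y² = 4 x³ - a x - b` with `a³ ≠ 27 b²` is given by a lattice.** -/
theorem exists_lattice {a b : ℂ} (h : a ^ 3 ≠ 27 * b ^ 2) :
    ∃ L : PeriodPair, L.g₂ = a ∧ L.g₃ = b := by
  have hπ : (Real.pi : ℂ) ≠ 0 := by exact_mod_cast Real.pi_ne_zero
  have hz4 : riemannZeta 4 = (Real.pi : ℂ) ^ 4 / 90 := riemannZeta_four
  have hz6 := zeta_six
  set A : ℂ := a / (4 * (Real.pi : ℂ) ^ 4 / 3) with hA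
  set B : ℂ := b / (8 * (Real.pi : ℂ) ^ 6 / 27) with hB
  have ha : a = 4 * (Real.pi : ℂ) ^ 4 / 3 * A := by rw [hA]; field_simp
  have hb : b = 8 * (Real.pi : ℂ) ^ 6 / 27 * B := by rw [hB]; field_simp
  have hAB : A ^ 3 - B ^ 2 ≠ 0 := by
    intro h0
    apply h
    have h1 : A ^ 3 = B ^ 2 := sub_eq_zero.1 h0
    rw [ha, hb, mul_pow, h1]
    ring
  obtain ⟨τ, hτ⟩ := Pool.Agent.Y729.FW.j_surj (1728 * A ^ 3 / (A ^ 3 - B ^ 2))
  have hD := discriminant_ne_zero τ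
  have hdisc := discriminant_eq_E₄_cube_sub_E₆_sq τ
  unfold jInv at hτ
  rw [div_eq_div_iff hD hAB] at hτ
  have hne : E₄ τ ≠ 0 ∨ E₆ τ ≠ 0 := by
    by_contra hcon
    push Not at hcon
    apply hD
    rw [hdisc, hcon.1, hcon.2]
    norm_num
  have hne' : A ≠ 0 ∨ B ≠ 0 := by
    by_contra hcon
    push Not at hcon
    apply hAB
    rw [hcon.1, hcon.2]
    norm_num
  obtain ⟨u, hu, h4, h6⟩ := exists_scale (a4 := A) (a6 := B) (b4 := E₄ τ) (b6 := E₆ τ)
    (D := (A ^ 3 - B ^ 2) / 1728) (D' := discriminant τ) (div_ne_zero hAB (by norm_num)) hD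
    (by linear_combination -hτ / 1728) (by
      have e1 : E₆ τ ^ 2 = E₄ τ ^ 3 - 1728 * discriminant τ := by rw [hdisc]; ring
      rw [e1]
      linear_combination -hτ / 1728) hne hne'
  have hui : u⁻¹ ≠ 0 := inv_ne_zero hu
  refine ⟨mkL τ u⁻¹ τ.im_pos hui, ?_, ?_⟩
  · unfold PeriodPair.g₂
    rw [G_eq τ.im_pos hui (k := 4) (by norm_num)]
    have e2 : E (k := 4) (by norm_num) (⟨(τ : ℂ), τ.im_pos⟩ : ℍ) = E₄ τ := rfl
    rw [e2, ha, h4, inv_pow, inv_inv]
    push_cast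
    rw [hz4]
    ring
  · unfold PeriodPair.g₃
    rw [G_eq τ.im_pos hui (k := 6) (by norm_num)]
    have e2 : E (k := 6) (by norm_num) (⟨(τ : ℂ), τ.im_pos⟩ : ℍ) = E₆ τ := rfl
    rw [e2, hb, h6, inv_pow, inv_inv]
    push_cast
    rw [hz6]
    ring

end Pool.Agent.N154.AR
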