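import Pool.Agent.N154.AR.MP
import Pool.Agent.N154.AR.Unif
import Pool.Agent.Helper620.Wg.KS

/-! From polynomials on plane cubics to entire curves. -/

set_option autoImplicit false

open Filter Topology Set Polynomial
open scoped LinearAlgebra.Projectivization

namespace Pool.Agent.N154.AR

open Pool.Agent.N155 Pool.Agent.N154.GG

variable {n : ℕ}

/-- **Every plane cubic has a parametrization by doubly periodic functions.** -/
theorem exists_xy (a b : ℂ) : ∃ (L : PeriodPair) (x y : ℂ → ℂ), Meromorphic x ∧ Meromorphic y ∧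
    (∀ l ∈ L.lattice, ∀ z, x (z + l) = x z ∧ y (z + l) = y z) ∧
    (∀ᶠ z in codiscrete ℂ, y z ^ 2 = 4 * x z ^ 3 - a * x z - b) ∧
    (∀ A : ℂ[X], (∀ᶠ z in codiscrete ℂ, A.eval (x z) = 0) → A = 0) ∧
    ∀ x1 y1 : ℂ, y1 ^ 2 = 4 * x1 ^ 3 - a * x1 - b →
      ∃ w, x w = x1 ∧ y w = y1 ∧ AnalyticAt ℂ x w ∧ AnalyticAt ℂ y w := by
  by_cases h : a ^ 3 = 27 * b ^ 2
  · -- rational cubics
    obtain ⟨e, ha, hb⟩ : ∃ e : ℂ, a = 12 * e ^ 2 ∧ b = -8 * e ^ 3 := by
      by_cases ha : a = 0
      · refine ⟨0, by rw [ha]; ring, ?_⟩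
        rw [ha] at h
        have : b ^ 2 = 0 := by linear_combination -h / 27
        have := pow_eq_zero_iff two_ne_zero |>.1 this
        rw [this]
        ring
      · refine ⟨-3 * b / (2 * a), ?_, ?_⟩
        · field_simp
          linear_combination 4 * h
        · field_simp
          linear_combination 8 * b * h
    let L : PeriodPair := mkL Complex.I 1 (by simp) one_ne_zero
    set P := L.weierstrassP with hP
    have hPm : Meromorphic P := L.meromorphic_weierstrassP
    have hPan : ∀ w ∉ L.lattice, AnalyticAt ℂ P w := fun w hw => L.analyticOnNhd_weierstrassP w hw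
    have hanx : ∀ w ∉ L.lattice, AnalyticAt ℂ (fun z : ℂ => P z ^ 2 - 2 * e) w := fun w hw =>
      ((hPan w hw).pow 2).sub analyticAt_const
    have hany : ∀ w ∉ L.lattice, AnalyticAt ℂ (fun z : ℂ => 2 * P z * (P z ^ 2 - 3 * e)) w :=
      fun w hw => (analyticAt_const.mul (hPan w hw)).mul (((hPan w hw).pow 2).sub analyticAt_const)
    refine ⟨L, fun z => P z ^ 2 - 2 * e, fun z => 2 * P z * (P z ^ 2 - 3 * e), ?_, ?_, ?_, ?_, ?_, ?_⟩
    · intro z
      exact ((hPm z).pow 2).sub (MeromorphicAt.const _ z)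
    · intro z
      exact ((MeromorphicAt.const _ z).mul (hPm z)).mul (((hPm z).pow 2).sub (MeromorphicAt.const _ z))
    · intro l hl z
      have h1 : P (z + l) = P z := L.weierstrassP_add_coe z ⟨l, hl⟩
      simp only [h1, and_self]
    · filter_upwards with z
      rw [ha, hb]
      ring
    · intro A hA
      have h1 : A.comp (X ^ 2 - C (2 * e)) = 0 := by
        apply poly_wp (L := L)
        filter_upwards [hA] with z hz
        rw [eval_comp, eval_sub, eval_pow, eval_X, eval_C]
        exact hz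
      apply Polynomial.funext
      intro r
      obtain ⟨z, hz⟩ := IsAlgClosed.exists_pow_nat_eq (r + 2 * e) (n := 2) (by norm_num)
      have := congrArg (Polynomial.eval z) h1
      rw [eval_comp, eval_sub, eval_pow, eval_X, eval_C, hz, add_sub_cancel_right] at this
      rw [this, eval_zero, eval_zero]
    · intro x1 y1 hxy
      obtain ⟨t, ht⟩ := IsAlgClosed.exists_pow_nat_eq (x1 + 2 * e) (n := 2) (by norm_num)
      have e1 : (2 * t * (t ^ 2 - 3 * e)) ^ 2 = y1 ^ 2 := by
        rw [hxy, ha, hb]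
        have : x1 = t ^ 2 - 2 * e := by rw [ht]; ring
        rw [this]
        ring
      rcases sq_eq_sq_iff_eq_or_eq_neg.1 e1 with e2 | e2
      · obtain ⟨w, hw, hwt⟩ := Wg.wp_surj L t
        refine ⟨w, ?_, ?_, hanx w hw, hany w hw⟩
        · simp only [hP, hwt, ht]
          ring
        · simp only [hP, hwt]
          exact e2
      · obtain ⟨w, hw, hwt⟩ := Wg.wp_surj L (-t)
        refine ⟨w, ?_, ?_, hanx w hw, hany w hw⟩
        · simp only [hP, hwt, neg_sq, ht]
          ring
        · simp only [hP, hwt, neg_sq]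
          linear_combination -e2
  · obtain ⟨L, ha, hb⟩ := exists_lattice h
    refine ⟨L, L.weierstrassP, L.derivWeierstrassP, L.meromorphic_weierstrassP,
      L.meromorphic_derivWeierstrassP, fun l hl z => ⟨L.weierstrassP_add_coe z ⟨l, hl⟩,
        L.derivWeierstrassP_add_coe z ⟨l, hl⟩⟩, ?_, fun A hA => poly_wp hA, ?_⟩
    · filter_upwards [codis_lattice L] with z hz
      rw [← ha, ← hb]
      exact L.derivWeierstrassP_sq z hz
    · intro x1 y1 hxy
      obtain ⟨w, hw, hw1⟩ := Wg.wp_surj L x1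
      have e1 : L.derivWeierstrassP w ^ 2 = y1 ^ 2 := by
        rw [L.derivWeierstrassP_sq w hw, hxy, hw1, ha, hb]
      rcases sq_eq_sq_iff_eq_or_eq_neg.1 e1 with e2 | e2
      · exact ⟨w, hw1, e2, L.analyticOnNhd_weierstrassP w hw,
          L.analyticOnNhd_derivWeierstrassP w hw⟩
      · have hw' : -w ∉ L.lattice := fun h1 => hw (by
          have := neg_mem h1
          rwa [neg_neg] at this)
        refine ⟨-w, by rw [L.weierstrassP_neg, hw1], ?_, L.analyticOnNhd_weierstrassP _ hw',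
          L.analyticOnNhd_derivWeierstrassP _ hw'⟩
        rw [L.derivWeierstrassP_neg, e2, neg_neg]

/-- **The entire curve.** -/
theorem ECur.curve {ι ι' : Type} {K : Type} [Field K] {τ : K →+* ℂ}
    {F : ι → MvPolynomial (Fin (n + 1)) K} {H : ι' → MvPolynomial (Fin (n + 1)) K}
    (hF : ∀ i, ∃ d, (F i).IsHomogeneous d) (hH : ∀ i, ∃ d, (H i).IsHomogeneous d) {a b : ℂ}
    {p : Fin (n + 1) → ℂ[X][X]} (h : ECur τ F H a b p) :
    ∃ f : ℂ → ℙ ℂ (Fin (n + 1) → ℂ), HolMap f ∧
      (∃ L : PeriodPair, ∀ l ∈ L.lattice, ∀ z, f (z + l) = f z) ∧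
      (∀ z i, MvPolynomial.eval₂ τ (f z).rep (F i) = 0) ∧
      (∃ z i, MvPolynomial.eval₂ τ (f z).rep (H i) ≠ 0) ∧ (¬ ∀ z w, f z = f w) ∧
      ∀ x1 y1 : ℂ, y1 ^ 2 = 4 * x1 ^ 3 - a * x1 - b → (fun j => evalEval x1 y1 (p j)) ≠ 0 →
        ∃ (w c : ℂ), c ≠ 0 ∧ (fun j => evalEval x1 y1 (p j)) = c • (f w).rep := by
  classical
  obtain ⟨L, x, y, hx, hy, hL, hxy, hA, hsurj⟩ := exists_xy a b
  have hrel : ∀ D : ℂ[X][X], (∀ᶠ z in codiscrete ℂ, evalEval (x z) (y z) D = 0) →
      D %ₘ Wq a b = 0 := by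
    intro D hD
    set U := (D %ₘ Wq a b).coeff 0 with hU
    set V := (D %ₘ Wq a b).coeff 1 with hV
    have h1 : U ^ 2 - Qc a b * V ^ 2 = 0 := by
      apply hA
      filter_upwards [hD, hxy] with z hz e1
      rw [eval_rem' a b _ _ e1 D, ← hU, ← hV] at hz
      rw [eval_sub, eval_pow, eval_mul, eval_pow, Qc_eval, ← e1]
      have e2 : U.eval (x z) = -(y z * V.eval (x z)) := by linear_combination hz
      rw [e2]
      ring
    obtain ⟨h2, h3⟩ := norm_ne _ _ h1
    rw [rem_form a b D, ← hU, ← hV, h2, h3]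
    simp
  obtain ⟨h1, ⟨i0, hne⟩, j, j', m, m', hc⟩ := h
  set hh : Fin (n + 1) → ℂ → ℂ := fun j z => evalEval (x z) (y z) (p j) with hhdef
  have hm : ∀ j, Meromorphic (hh j) := fun j => mero_ev2 hx hy (p j)
  have h0 : ∃ j, ¬ ∀ᶠ z in codiscrete ℂ, hh j z = 0 := by
    by_contra hcon
    push Not at hcon
    apply hc
    rw [hrel _ (hcon j), hrel _ (hcon j')]
  obtain ⟨f, hf, hfc, hfa⟩ := mero_proj hm h0
  have hev : ∀ (G : MvPolynomial (Fin (n + 1)) K) (v : Fin (n + 1) → ℂ),
      MvPolynomial.eval₂ τ v G = MvPolynomial.eval v (MvPolynomial.map τ G) := fun G v =>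
    (MvPolynomial.eval_map τ v G).symm
  refine ⟨f, hf, ⟨L, fun l hl z => per_of_coord hf hfc (fun j z => ?_) z⟩, fun z i => ?_, ?_, ?_, ?_⟩
  · simp only [hhdef]
    rw [(hL l hl z).1, (hL l hl z).2]
  · obtain ⟨d, hd⟩ := hF i
    rw [hev]
    refine form_all hf (hd.map τ) ?_ z
    filter_upwards [hfc, hxy] with w h2 h3
    obtain ⟨c, hc0, hcw⟩ := h2
    have e1 := eval_rem a b _ _ h3 (sub2 τ p (F i))
    rw [h1 i, sub2_eval, hev, show (fun j => evalEval (x w) (y w) (p j)) = c • (f w).rep from hcw,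
      eval_smul' (hd.map τ)] at e1
    have e2 : evalEval (x w) (y w) (0 : ℂ[X][X]) = 0 := by simp [evalEval]
    rw [e2] at e1
    exact (mul_eq_zero.1 e1).resolve_left (pow_ne_zero _ hc0)
  · by_contra hcon
    push Not at hcon
    apply hne
    apply hrel
    obtain ⟨d, hd⟩ := hH i0
    filter_upwards [hfc] with w h2
    obtain ⟨c, hc0, hcw⟩ := h2
    rw [sub2_eval, hev, show (fun j => evalEval (x w) (y w) (p j)) = c • (f w).rep from hcw,
      eval_smul' (hd.map τ), ← hev, hcon w i0, mul_zero]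
  · intro hconst
    set μ := (f 0).rep with hμ
    obtain ⟨l, hl⟩ := Function.ne_iff.1 (f 0).rep_nonzero
    have hl' : μ l ≠ 0 := hl
    have h2 : ∀ j, (C (C (μ l)) * p j - C (C (μ j)) * p l) %ₘ Wq a b = 0 := by
      intro j
      apply hrel
      filter_upwards [hfc] with w h3
      obtain ⟨c, hc0, hcw⟩ := h3
      rw [hconst w 0] at hcw
      have e1 := congrFun hcw j
      have e2 := congrFun hcw l
      simp only [Pi.smul_apply, smul_eq_mul, hhdef] at e1 e2
      rw [evalEval_sub, evalEval_mul, evalEval_mul, e1, e2]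
      simp only [evalEval_C, eval_C]
      rw [← hμ]
      ring
    have h3 : ∀ j t, μ l * cf (p j %ₘ Wq a b) t = μ j * cf (p l %ₘ Wq a b) t := by
      intro j t
      have e1 := h2 j
      rw [← smul_eq_C_mul, ← smul_eq_C_mul, sub_modByMonic, smul_modByMonic, smul_modByMonic,
        smul_eq_C_mul, smul_eq_C_mul] at e1
      have := congrArg (fun D => cf D t) e1
      simp only [cf, coeff_sub, coeff_C_mul, coeff_zero] at this
      simp only [cf]
      linear_combination this
    apply hc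
    apply mul_left_cancel₀ (mul_ne_zero hl' hl')
    calc μ l * μ l * (cf (p j %ₘ Wq a b) m * cf (p j' %ₘ Wq a b) m') =
          (μ l * cf (p j %ₘ Wq a b) m) * (μ l * cf (p j' %ₘ Wq a b) m') := by ring
      _ = (μ l * cf (p j' %ₘ Wq a b) m) * (μ l * cf (p j %ₘ Wq a b) m') := by
          rw [h3 j m, h3 j' m', h3 j' m, h3 j m']
          ring
      _ = _ := by ring
  · intro x1 y1 h2 h3
    obtain ⟨w, hw1, hw2, hwx, hwy⟩ := hsurj x1 y1 h2
    obtain ⟨c, hc0, hcw⟩ := hfa w (fun j => by
      have hcx : ∀ D : ℂ[X][X], AnalyticAt ℂ (fun z => evalEval (x z) (y z) D) w := by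
        intro D
        induction D using Polynomial.induction_on' with
        | add p q hp hq =>
          simp only [evalEval_add]
          exact hp.add hq
        | monomial n a =>
          have h1 : (fun z => evalEval (x z) (y z) (monomial n a)) =
              fun z => a.eval (x z) * y z ^ n := by
            funext z
            simp [evalEval]
          rw [h1]
          exact (an_ev hwx a).mul (hwy.pow n)
      exact hcx (p j)) (by
        simp only [hhdef, hw1, hw2]
        exact h3)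
    refine ⟨w, c, hc0, ?_⟩
    rw [← hcw]
    simp only [hhdef, hw1, hw2]

end Pool.Agent.N154.AR
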