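import Pool.Agent.N154.AR.Alg

/-! Curves of genus one in projective varieties over fields, and their specializations. -/

set_option autoImplicit false

open Polynomial

namespace Pool.Agent.N154.AR

variable {N : ℕ} {ι ι' : Type}

/-- evaluation of a polynomial at a system of polynomials in `x`, `y` -/
noncomputable def sub2 {R A : Type} [CommRing R] [CommRing A] (φ : R →+* A)
    (p : Fin (N + 1) → A[X][X]) (G : MvPolynomial (Fin (N + 1)) R) : A[X][X] :=
  MvPolynomial.eval₂ ((C : A[X] →+* A[X][X]).comp (C.comp φ)) p G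

theorem sub2_map {R A A' : Type} [CommRing R] [CommRing A] [CommRing A'] (φ : R →+* A)
    (g : A →+* A') (p : Fin (N + 1) → A[X][X]) (G : MvPolynomial (Fin (N + 1)) R) :
    (sub2 φ p G).map (mapRingHom g) = sub2 (g.comp φ) (fun j => (p j).map (mapRingHom g)) G := by
  unfold sub2
  rw [← coe_mapRingHom, MvPolynomial.eval₂_comp_left]
  congr 1
  ext r
  · simp

theorem sub2_eval {R A : Type} [CommRing R] [CommRing A] (φ : R →+* A)
    (p : Fin (N + 1) → A[X][X]) (G : MvPolynomial (Fin (N + 1)) R) (x y : A) :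
    evalEval x y (sub2 φ p G) = MvPolynomial.eval₂ φ (fun j => evalEval x y (p j)) G := by
  unfold sub2
  rw [← coe_evalEvalRingHom, MvPolynomial.eval₂_comp_left]
  congr 1
  ext r
  simp [evalEval]

/-- coefficients -/
noncomputable def cf {A : Type} [CommRing A] (D : A[X][X]) (m : ℕ × ℕ) : A := (D.coeff m.1).coeff m.2

theorem cf_map {A A' : Type} [CommRing A] [CommRing A'] (g : A →+* A') (D : A[X][X]) (m : ℕ × ℕ) :
    cf (D.map (mapRingHom g)) m = g (cf D m) := by
  simp [cf]

theorem exists_cf {A : Type} [CommRing A] {D : A[X][X]} (h : D ≠ 0) : ∃ m, cf D m ≠ 0 := by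
  by_contra hc
  push Not at hc
  apply h
  ext i j
  exact hc (i, j)

/-- A map from the curve `y² = 4 x³ - a x - b` to the projective variety given by the `F i`,
nonconstant, whose image is not contained in the variety given by the `H i`. -/
structure ECur {R A : Type} [CommRing R] [Field A] (φ : R →+* A)
    (F : ι → MvPolynomial (Fin (N + 1)) R) (H : ι' → MvPolynomial (Fin (N + 1)) R) (a b : A)
    (p : Fin (N + 1) → A[X][X]) : Prop where
  zero : ∀ i, sub2 φ p (F i) %ₘ Wq a b = 0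
  ne : ∃ i, sub2 φ p (H i) %ₘ Wq a b ≠ 0
  nc : ∃ (j k : Fin (N + 1)) (m m' : ℕ × ℕ), cf (p j %ₘ Wq a b) m * cf (p k %ₘ Wq a b) m' ≠
    cf (p k %ₘ Wq a b) m * cf (p j %ₘ Wq a b) m'

theorem ECur.spec {k E : Type} [Field k] [Field E] [Algebra k E]
    {F : ι → MvPolynomial (Fin (N + 1)) k} {H : ι' → MvPolynomial (Fin (N + 1)) k} {a b : E}
    {p : Fin (N + 1) → E[X][X]} (h : ECur (algebraMap k E) F H a b p) :
    ∃ (L : Type) (_ : Field L) (_ : Algebra k L) (_ : FiniteDimensional k L) (a' b' : L)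
      (p' : Fin (N + 1) → L[X][X]), ECur (algebraMap k L) F H a' b' p' := by
  classical
  obtain ⟨h1, ⟨i, hne⟩, j, j', m, m', hc⟩ := h
  set cc : E := cf (p j %ₘ Wq a b) m * cf (p j' %ₘ Wq a b) m' -
    cf (p j' %ₘ Wq a b) m * cf (p j %ₘ Wq a b) m' with hcc
  have hcc0 : cc ≠ 0 := sub_ne_zero.2 hc
  obtain ⟨t, ht⟩ := exists_cf hne
  set dd : E := cf (sub2 (algebraMap k E) p (H i) %ₘ Wq a b) t with hdd
  let s : Finset E := (Finset.univ.biUnion fun j => (p j).support.biUnion fun m =>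
    ((p j).coeff m).coeffs) ∪ {cc⁻¹, dd⁻¹, a, b}
  let A := Algebra.adjoin k (s : Set E)
  have hs : ∀ x ∈ s, x ∈ A := fun x hx => Algebra.subset_adjoin hx
  have hA : Algebra.FiniteType k A :=
    ⟨(Subalgebra.fg_top A).2 ⟨s, rfl⟩⟩
  obtain ⟨M, hM⟩ := Ideal.exists_maximal A
  let _ : Field (A ⧸ M) := Ideal.Quotient.field M
  have hft : Algebra.FiniteType k (A ⧸ M) :=
    Algebra.FiniteType.of_surjective (Ideal.Quotient.mkₐ k M) Ideal.Quotient.mk_surjective
  have hfin : Module.Finite k (A ⧸ M) := finite_of_finite_type_of_isJacobsonRing k (A ⧸ M)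
  let θ : A →+* A ⧸ M := Ideal.Quotient.mk M
  let e : A →+* E := algebraMap A E
  have hinj : Function.Injective e := Subtype.val_injective
  have hinj2 : Function.Injective (mapRingHom e) := Polynomial.map_injective _ hinj
  have hinj3 : Function.Injective (Polynomial.map (mapRingHom e)) := Polynomial.map_injective _ hinj2
  -- lifts
  have hlift : ∀ j, ∃ q : A[X][X], q.map (mapRingHom e) = p j := by
    intro j
    have h2 : p j ∈ Polynomial.lifts (mapRingHom e) := by
      rw [Polynomial.lifts_iff_coeff_lifts]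
      intro t
      have h3 : (p j).coeff t ∈ Polynomial.lifts e := by
        rw [Polynomial.lifts_iff_coeff_lifts]
        intro u
        by_cases hu : ((p j).coeff t).coeff u = 0
        · exact ⟨0, by rw [hu, map_zero]⟩
        · refine ⟨⟨((p j).coeff t).coeff u, hs _ ?_⟩, rfl⟩
          refine Finset.mem_union_left _ (Finset.mem_biUnion.2 ⟨j, Finset.mem_univ _,
            Finset.mem_biUnion.2 ⟨t, ?_, Polynomial.coeff_mem_coeffs hu⟩⟩)
          rw [mem_support_iff]
          intro h0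
          rw [h0, coeff_zero] at hu
          exact hu rfl
      obtain ⟨q, hq⟩ := (Polynomial.mem_lifts _).1 h3
      exact ⟨q, hq⟩
    exact (Polynomial.mem_lifts _).1 h2
  choose P hP using hlift
  let a1 : A := ⟨a, hs _ (by simp [s])⟩
  let b1 : A := ⟨b, hs _ (by simp [s])⟩
  have hcur : ∀ G, (sub2 (algebraMap k A) P G).map (mapRingHom e) = sub2 (algebraMap k E) p G := by
    intro G
    rw [sub2_map]
    congr 1
    funext j
    exact hP j
  have hcur' : ∀ G, (sub2 (algebraMap k A) P G).map (mapRingHom θ) =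
      sub2 (algebraMap k (A ⧸ M)) (fun j => (P j).map (mapRingHom θ)) G := by
    intro G
    rw [sub2_map]
    rfl
  have hW : (Wq a1 b1).map (mapRingHom e) = Wq a b := Wq_map e a1 b1
  have hW' : (Wq a1 b1).map (mapRingHom θ) = Wq (θ a1) (θ b1) := Wq_map θ a1 b1
  have hre : ∀ D : A[X][X], (D %ₘ Wq a1 b1).map (mapRingHom e) =
      D.map (mapRingHom e) %ₘ Wq a b := fun D => by
    rw [Polynomial.map_modByMonic _ (Wq_monic _ _), hW]
  have hrθ : ∀ D : A[X][X], (D %ₘ Wq a1 b1).map (mapRingHom θ) =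
      D.map (mapRingHom θ) %ₘ Wq (θ a1) (θ b1) := fun D => by
    rw [Polynomial.map_modByMonic _ (Wq_monic _ _), hW']
  have hunit : ∀ x : A, ((x : E))⁻¹ ∈ s → (x : E) ≠ 0 → θ x ≠ 0 := by
    intro x hx hx0 h0
    have h2 : x * ⟨_, hs _ hx⟩ = 1 := Subtype.ext (mul_inv_cancel₀ hx0)
    have h3 := congrArg θ h2
    rw [map_mul, h0, zero_mul, map_one] at h3
    exact zero_ne_one h3
  refine ⟨A ⧸ M, inferInstance, inferInstance, hfin, θ a1, θ b1,
    fun j => (P j).map (mapRingHom θ), ⟨fun i => ?_, ⟨i, ?_⟩, j, j', m, m', ?_⟩⟩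
  · have h2 : sub2 (algebraMap k A) P (F i) %ₘ Wq a1 b1 = 0 := by
      apply hinj3
      rw [hre, hcur, h1 i, Polynomial.map_zero]
    rw [← hcur', ← hrθ, h2, Polynomial.map_zero]
  · rw [← hcur', ← hrθ]
    intro h0
    set q := sub2 (algebraMap k A) P (H i) %ₘ Wq a1 b1 with hq
    have h2 : ((cf q t : A) : E) = dd := by
      change e (cf q t) = dd
      rw [← cf_map, hq, hre, hcur]
    refine hunit (cf q t) ?_ ?_ ?_
    · rw [h2]
      simp [s]
    · rw [h2]
      exact ht
    · rw [← cf_map, h0]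
      simp [cf]
  · rw [← hrθ, ← hrθ, cf_map, cf_map, cf_map, cf_map]
    intro h0
    have h3 : ∀ j m, ((cf (P j %ₘ Wq a1 b1) m : A) : E) = cf (p j %ₘ Wq a b) m := fun j m => by
      change e (cf _ _) = _
      rw [← cf_map, hre, hP]
    have h2 : ((cf (P j %ₘ Wq a1 b1) m * cf (P j' %ₘ Wq a1 b1) m' -
        cf (P j' %ₘ Wq a1 b1) m * cf (P j %ₘ Wq a1 b1) m' : A) : E) = cc := by
      rw [hcc, ← h3, ← h3, ← h3, ← h3]
      rfl
    refine hunit (cf (P j %ₘ Wq a1 b1) m * cf (P j' %ₘ Wq a1 b1) m' -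
        cf (P j' %ₘ Wq a1 b1) m * cf (P j %ₘ Wq a1 b1) m') ?_ ?_ ?_
    · rw [h2]
      simp [s]
    · rw [h2]
      exact hcc0
    · rw [map_sub, map_mul, map_mul, sub_eq_zero]
      exact h0

/-- base change to a larger field -/
theorem ECur.map {R A A' : Type} [CommRing R] [Field A] [Field A'] {φ : R →+* A}
    {F : ι → MvPolynomial (Fin (N + 1)) R} {H : ι' → MvPolynomial (Fin (N + 1)) R} {a b : A}
    {p : Fin (N + 1) → A[X][X]} (h : ECur φ F H a b p) (g : A →+* A') :
    ECur (g.comp φ) F H (g a) (g b) (fun j => (p j).map (mapRingHom g)) := by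
  obtain ⟨h1, ⟨i, hne⟩, j, j', m, m', hc⟩ := h
  have hr : ∀ D : A[X][X], (D %ₘ Wq a b).map (mapRingHom g) =
      D.map (mapRingHom g) %ₘ Wq (g a) (g b) := fun D => by
    rw [Polynomial.map_modByMonic _ (Wq_monic _ _), Wq_map]
  have hinj : Function.Injective (Polynomial.map (mapRingHom g)) :=
    Polynomial.map_injective _ (Polynomial.map_injective _ g.injective)
  refine ⟨fun i => ?_, ⟨i, ?_⟩, j, j', m, m', ?_⟩
  · rw [← sub2_map, ← hr, h1, Polynomial.map_zero]
  · rw [← sub2_map, ← hr]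
    intro h0
    exact hne (hinj (by rw [h0, Polynomial.map_zero]))
  · rw [← hr, ← hr, cf_map, cf_map, cf_map, cf_map, ← map_mul, ← map_mul]
    exact fun h0 => hc (g.injective h0)

end Pool.Agent.N154.AR
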