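import Pool.Agent.N154.AR.Ellf
import Pool.Agent.N154.AR.Spec
import Pool.Agent.N154.GG.Defs

/-! From doubly periodic holomorphic maps to polynomials on plane cubics. -/

set_option autoImplicit false

open Filter Topology Set Polynomial
open scoped LinearAlgebra.Projectivization

namespace Pool.Agent.N154.AR

open Pool.Agent.N155 Pool.Agent.N154.GG

variable {n : ℕ} {L : PeriodPair}

/-- `℘` is not algebraic -/
theorem poly_wp {A : ℂ[X]} (h : ∀ᶠ z in codiscrete ℂ, A.eval (L.weierstrassP z) = 0) : A = 0 := by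
  by_contra hA
  have h1 : Tendsto L.weierstrassP (𝓝[≠] 0) (Bornology.cobounded ℂ) :=
    tendsto_cobounded_of_meromorphicOrderAt_neg (by
      rw [L.order_weierstrassP 0 (zero_mem _)]
      decide)
  have h2 : (A.roots.toFinset : Set ℂ)ᶜ ∈ Bornology.cobounded ℂ :=
    Bornology.isBounded_def.1 (Finset.finite_toSet _).isBounded
  have h3 := h1.eventually (eventually_mem_set.2 h2)
  obtain ⟨z, hz1, hz2⟩ := (h3.and (codis_ev h 0)).exists
  apply hz1
  simp only [Finset.mem_coe, Multiset.mem_toFinset]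
  exact (mem_roots hA).2 hz2

theorem mero_ev2 {f g : ℂ → ℂ} (hf : Meromorphic f) (hg : Meromorphic g) (D : ℂ[X][X]) :
    Meromorphic fun z => evalEval (f z) (g z) D := by
  induction D using Polynomial.induction_on' with
  | add p q hp hq =>
    simp only [evalEval_add]
    exact hp.add hq
  | monomial n a =>
    have h1 : (fun z => evalEval (f z) (g z) (monomial n a)) = fun z => a.eval (f z) * g z ^ n := by
      funext z
      simp [evalEval]
    rw [h1]
    intro z
    exact (mero_ev hf a z).mul ((hg z).pow n)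

/-- relations between `℘` and `℘'` -/
theorem rel_iff (L : PeriodPair) (D : ℂ[X][X]) :
    (∀ᶠ z in codiscrete ℂ, evalEval (L.weierstrassP z) (L.derivWeierstrassP z) D = 0) ↔
      D %ₘ Wq L.g₂ L.g₃ = 0 := by
  constructor
  · intro h
    set U := (D %ₘ Wq L.g₂ L.g₃).coeff 0 with hU
    set V := (D %ₘ Wq L.g₂ L.g₃).coeff 1 with hV
    have h1 : U ^ 2 - Qc L.g₂ L.g₃ * V ^ 2 = 0 := by
      apply poly_wp (L := L)
      filter_upwards [h, codis_lattice L] with z hz hzL
      have e1 := L.derivWeierstrassP_sq z hzL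
      rw [eval_rem' L.g₂ L.g₃ _ _ e1 D, ← hU, ← hV] at hz
      rw [eval_sub, eval_pow, eval_mul, eval_pow, Qc_eval, ← e1]
      have e2 : U.eval (L.weierstrassP z) =
          -(L.derivWeierstrassP z * V.eval (L.weierstrassP z)) := by linear_combination hz
      rw [e2]
      ring
    obtain ⟨h2, h3⟩ := norm_ne _ _ h1
    rw [rem_form L.g₂ L.g₃ D, ← hU, ← hV, h2, h3]
    simp
  · intro h
    filter_upwards [codis_lattice L] with z hzL
    have e1 := L.derivWeierstrassP_sq z hzL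
    rw [eval_rem' L.g₂ L.g₃ _ _ e1 D, h]
    simp

/-- local coordinates -/
theorem loc {g : ℂ → ℙ ℂ (Fin (n + 1) → ℂ)} (hg : HolMap g) (z : ℂ) :
    ∃ G : ℂ → Fin (n + 1) → ℂ, (∀ j, AnalyticAt ℂ (fun w => G w j) z) ∧
      ∀ᶠ w in 𝓝 z, ∃ c : ℂ, c ≠ 0 ∧ (g w).rep = c • G w := by
  obtain ⟨V, G, hV, hz, hd, hG⟩ := hg z
  refine ⟨G, fun j => ?_, ?_⟩
  · have h1 : DifferentiableOn ℂ (fun w => G w j) V := fun w hw =>
      (differentiableWithinAt_pi.1 (hd w hw)) j
    exact h1.analyticAt (hV.mem_nhds hz)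
  · filter_upwards [hV.mem_nhds hz] with w hw
    obtain ⟨h0, h1⟩ := hG w hw
    obtain ⟨c, hc⟩ := Projectivization.exists_smul_eq_mk_rep ℂ (G w) h0
    exact ⟨c, Units.ne_zero _, by rw [h1, ← hc]; rfl⟩

theorem eval_smul' {G : MvPolynomial (Fin (n + 1)) ℂ} {d : ℕ} (hd : G.IsHomogeneous d) (c : ℂ)
    (v : Fin (n + 1) → ℂ) : MvPolynomial.eval (c • v) G = c ^ d * MvPolynomial.eval v G := by
  rw [MvPolynomial.eval_eq, MvPolynomial.eval_eq, Finset.mul_sum]
  refine Finset.sum_congr rfl fun s hs => ?_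
  have h3 : ∏ i ∈ s.support, (c • v) i ^ s i = c ^ d * ∏ i ∈ s.support, v i ^ s i := by
    simp only [Pi.smul_apply, smul_eq_mul, mul_pow]
    rw [Finset.prod_mul_distrib, Finset.prod_pow_eq_pow_sum]
    congr 2
    have := hd (MvPolynomial.mem_support_iff.1 hs)
    rw [← this]
    have h4 := congrArg (fun f => f s) (Finsupp.degree_eq_weight_one (σ := Fin (n + 1)) (R := ℕ))
    exact h4
  rw [h3]
  ring

/-- forms which vanish on a codiscrete set vanish everywhere -/
theorem form_all {g : ℂ → ℙ ℂ (Fin (n + 1) → ℂ)} (hg : HolMap g)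
    {G : MvPolynomial (Fin (n + 1)) ℂ} {d : ℕ} (hd : G.IsHomogeneous d)
    (h : ∀ᶠ z in codiscrete ℂ, MvPolynomial.eval (g z).rep G = 0) (z : ℂ) :
    MvPolynomial.eval (g z).rep G = 0 := by
  obtain ⟨u, hu, hu'⟩ := loc hg z
  have h1 : ContinuousAt (fun w => MvPolynomial.eval (u w) G) z := by
    have h2 : ContinuousAt u z := continuousAt_pi.2 fun j => (hu j).continuousAt
    exact (MvPolynomial.continuous_eval G).continuousAt.comp h2
  have h2 : (fun w => MvPolynomial.eval (u w) G) =ᶠ[𝓝[≠] z] fun _ => (0 : ℂ) := by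
    filter_upwards [codis_ev h z, hu'.filter_mono nhdsWithin_le_nhds] with w h3 h4
    obtain ⟨c, hc, hcw⟩ := h4
    rw [hcw, eval_smul' hd] at h3
    exact (mul_eq_zero.1 h3).resolve_left (pow_ne_zero _ hc)
  have h3 := ((h1.eventuallyEq_nhds_iff_eventuallyEq_nhdsNE continuousAt_const).1 h2).self_of_nhds
  obtain ⟨c, hc, hcw⟩ := hu'.self_of_nhds
  rw [hcw, eval_smul' hd]
  simp only at h3
  rw [h3, mul_zero]

/-- **Coordinates.** -/
theorem exists_coord {g : ℂ → ℙ ℂ (Fin (n + 1) → ℂ)} (hg : HolMap g)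
    (hper : ∀ l ∈ L.lattice, ∀ z, g (z + l) = g z) :
    ∃ p : Fin (n + 1) → ℂ[X][X], ∀ᶠ z in codiscrete ℂ, ∃ c : ℂ, c ≠ 0 ∧
      ∀ j, evalEval (L.weierstrassP z) (L.derivWeierstrassP z) (p j) = c * (g z).rep j := by
  classical
  obtain ⟨k, hk⟩ : ∃ k, (g 0).rep k ≠ 0 := by
    by_contra hc
    push Not at hc
    exact (g 0).rep_nonzero (funext hc)
  let r : Fin (n + 1) → ℂ → ℂ := fun j z => (g z).rep j / (g z).rep k
  have hloc : ∀ z, ∃ G : ℂ → Fin (n + 1) → ℂ, (∀ j, AnalyticAt ℂ (fun w => G w j) z) ∧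
      (∀ᶠ w in 𝓝 z, ∃ c : ℂ, c ≠ 0 ∧ (g w).rep = c • G w) ∧
      ∀ j, ∀ᶠ w in 𝓝 z, r j w = G w j / G w k := by
    intro z
    obtain ⟨G, hG, hG'⟩ := loc hg z
    refine ⟨G, hG, hG', fun j => ?_⟩
    filter_upwards [hG'] with w hw
    obtain ⟨c, hc, hcw⟩ := hw
    simp only [r]
    rw [hcw, Pi.smul_apply, Pi.smul_apply, smul_eq_mul, smul_eq_mul, mul_div_mul_left _ _ hc]
  have hmer : ∀ j, Meromorphic (r j) := by
    intro j z
    obtain ⟨G, hG, -, hG'⟩ := hloc z
    have h1 : MeromorphicAt (fun w => G w j / G w k) z :=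
      (hG j).meromorphicAt.div (hG k).meromorphicAt
    refine h1.congr ?_
    filter_upwards [(hG' j).filter_mono nhdsWithin_le_nhds] with w hw
    exact hw.symm
  have hperr : ∀ j, ∀ l ∈ L.lattice, ∀ z, r j (z + l) = r j z := fun j l hl z => by
    simp only [r]
    rw [hper l hl z]
  have hk1 : ∀ᶠ z in codiscrete ℂ, r k z = 1 := by
    refine mero_id2 (hmer k) (Meromorphic.const 1) (x := 0) (freq_of_ev ?_)
    obtain ⟨G, hG, hG1, hG'⟩ := hloc 0
    have h1 : G 0 k ≠ 0 := by
      obtain ⟨c, hc, hcw⟩ := hG1.self_of_nhds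
      rw [hcw, Pi.smul_apply, smul_eq_mul] at hk
      exact right_ne_zero_of_mul hk
    filter_upwards [hG' k, (hG k).continuousAt.eventually_ne h1] with w h2 h3
    rw [h2, div_self h3]
  choose A B C hC hr using fun j => all_rat (L := L) (hmer j) (hperr j)
  set Cp : ℂ[X] := ∏ j, C j with hCp
  have hCp0 : Cp ≠ 0 := Finset.prod_ne_zero_iff.2 fun j _ => hC j
  refine ⟨fun j => Polynomial.C (∏ i ∈ Finset.univ.erase j, C i) *
    (Polynomial.C (A j) + X * Polynomial.C (B j)), ?_⟩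
  have hCpn : ∀ᶠ z in codiscrete ℂ, Cp.eval (L.weierstrassP z) ≠ 0 :=
    mero_ne (mero_ev L.meromorphic_weierstrassP Cp) fun h => hCp0 (poly_wp h)
  have hrall : ∀ᶠ z in codiscrete ℂ, ∀ j, (C j).eval (L.weierstrassP z) * r j z =
      (A j).eval (L.weierstrassP z) + L.derivWeierstrassP z * (B j).eval (L.weierstrassP z) :=
    eventually_all.2 hr
  filter_upwards [hCpn, hrall, hk1] with z h1 h2 h3
  have hk0 : (g z).rep k ≠ 0 := by
    intro h0
    simp only [r] at h3
    rw [h0, div_zero] at h3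
    exact zero_ne_one h3
  refine ⟨Cp.eval (L.weierstrassP z) / (g z).rep k, div_ne_zero h1 hk0, fun j => ?_⟩
  rw [evalEval_mul, evalEval_add, evalEval_mul, evalEval_C, evalEval_C, evalEval_C, evalEval_X,
    ← h2 j, ← mul_assoc, ← eval_mul, Finset.prod_erase_mul _ _ (Finset.mem_univ j), ← hCp]
  simp only [r]
  field_simp

/-- **Spreading out, first step.** -/
theorem exists_ecur {ι ι' : Type} {K : Type} [Field K] (σ : K →+* ℂ)
    {F : ι → MvPolynomial (Fin (n + 1)) K} {H : ι' → MvPolynomial (Fin (n + 1)) K}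
    (hF : ∀ i, ∃ d, (F i).IsHomogeneous d) (hH : ∀ i, ∃ d, (H i).IsHomogeneous d)
    {g : ℂ → ℙ ℂ (Fin (n + 1) → ℂ)} (hg : HolMap g)
    (hper : ∀ l ∈ L.lattice, ∀ z, g (z + l) = g z)
    (hgF : ∀ z i, MvPolynomial.eval₂ σ (g z).rep (F i) = 0)
    (hgH : ∃ z i, MvPolynomial.eval₂ σ (g z).rep (H i) ≠ 0) (hnc : ¬ ∀ z w, g z = g w) :
    ∃ p, ECur σ F H L.g₂ L.g₃ p ∧ ∀ᶠ z in codiscrete ℂ, ∃ c : ℂ, c ≠ 0 ∧
      ∀ j, evalEval (L.weierstrassP z) (L.derivWeierstrassP z) (p j) = c * (g z).rep j := by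
  classical
  obtain ⟨p, hp⟩ := exists_coord hg hper
  have hev : ∀ (G : MvPolynomial (Fin (n + 1)) K) (v : Fin (n + 1) → ℂ),
      MvPolynomial.eval₂ σ v G = MvPolynomial.eval v (MvPolynomial.map σ G) := fun G v =>
    (MvPolynomial.eval_map σ v G).symm
  refine ⟨p, ⟨fun i => ?_, ?_, ?_⟩, hp⟩
  · rw [← rel_iff]
    filter_upwards [hp] with z hz
    obtain ⟨c, hc, hcz⟩ := hz
    obtain ⟨d, hd⟩ := hF i
    rw [sub2_eval, hev, show (fun j => evalEval (L.weierstrassP z) (L.derivWeierstrassP z) (p j)) =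
      c • (g z).rep from funext hcz, eval_smul' (hd.map σ), ← hev, hgF, mul_zero]
  · by_contra hcon
    push Not at hcon
    obtain ⟨z, i, hzi⟩ := hgH
    apply hzi
    obtain ⟨d, hd⟩ := hH i
    rw [hev]
    refine form_all hg (hd.map σ) ?_ z
    filter_upwards [(rel_iff L _).2 (hcon i), hp] with w h1 h2
    obtain ⟨c, hc, hcz⟩ := h2
    rw [sub2_eval, hev, show (fun j => evalEval (L.weierstrassP w) (L.derivWeierstrassP w) (p j)) =
      c • (g w).rep from funext hcz, eval_smul' (hd.map σ)] at h1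
    exact (mul_eq_zero.1 h1).resolve_left (pow_ne_zero _ hc)
  · by_contra hcon
    push Not at hcon
    apply hnc
    -- a nonzero coordinate
    obtain ⟨j0, hj0⟩ : ∃ j0, p j0 %ₘ Wq L.g₂ L.g₃ ≠ 0 := by
      by_contra hall
      push Not at hall
      have h1 : ∀ᶠ z in codiscrete ℂ, ∀ j,
          evalEval (L.weierstrassP z) (L.derivWeierstrassP z) (p j) = 0 :=
        eventually_all.2 fun j => (rel_iff L _).2 (hall j)
      obtain ⟨z, h2, c, hc, hcz⟩ := (h1.and hp).exists
      apply (g z).rep_nonzero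
      funext j
      have := hcz j
      rw [h2 j] at this
      exact (mul_eq_zero.1 this.symm).resolve_left hc
    obtain ⟨m, hm⟩ := exists_cf hj0
    set γ := cf (p j0 %ₘ Wq L.g₂ L.g₃) m with hγ
    set μ : Fin (n + 1) → ℂ := fun j => cf (p j %ₘ Wq L.g₂ L.g₃) m with hμ
    have h1 : ∀ j z, MvPolynomial.eval (g z).rep
        (MvPolynomial.C γ * MvPolynomial.X j - MvPolynomial.C (μ j) * MvPolynomial.X j0) = 0 := by
      intro j z
      refine form_all hg (d := 1) ?_ ?_ z
      · exact (MvPolynomial.isHomogeneous_C_mul_X _ _).sub (MvPolynomial.isHomogeneous_C_mul_X _ _)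
      · have h2 : (C (C γ) * p j - C (C (μ j)) * p j0) %ₘ Wq L.g₂ L.g₃ = 0 := by
          rw [← smul_eq_C_mul, ← smul_eq_C_mul, sub_modByMonic, smul_modByMonic, smul_modByMonic,
            smul_eq_C_mul, smul_eq_C_mul]
          ext a b
          have := hcon j0 j m (a, b)
          simp only [cf] at this
          simp only [coeff_sub, coeff_C_mul, coeff_zero]
          rw [hγ, hμ]
          simp only [cf]
          linear_combination this
        filter_upwards [(rel_iff L _).2 h2, hp] with w h3 h4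
        obtain ⟨c, hc, hcz⟩ := h4
        rw [evalEval_sub, evalEval_mul, evalEval_mul, hcz, hcz] at h3
        simp only [evalEval_C, eval_C] at h3
        simp only [map_sub, map_mul, MvPolynomial.eval_C, MvPolynomial.eval_X]
        apply (mul_eq_zero.1 (_ : c * _ = 0)).resolve_left hc
        linear_combination h3
    have h2 : ∀ z, (g z).rep = ((g z).rep j0 / γ) • μ := by
      intro z
      funext j
      have := h1 j z
      simp only [map_sub, map_mul, MvPolynomial.eval_C, MvPolynomial.eval_X] at this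
      rw [Pi.smul_apply, smul_eq_mul]
      field_simp
      linear_combination this
    intro z w
    have h3 : (g z).rep j0 ≠ 0 := fun h0 => by
      apply (g z).rep_nonzero
      rw [h2 z, h0, zero_div, zero_smul]
    have h4 : (g w).rep j0 ≠ 0 := fun h0 => by
      apply (g w).rep_nonzero
      rw [h2 w, h0, zero_div, zero_smul]
    rw [← (g z).mk_rep, ← (g w).mk_rep]
    rw [Projectivization.mk_eq_mk_iff']
    obtain ⟨s, hs⟩ : ∃ s, s = (g w).rep j0 := ⟨_, rfl⟩
    obtain ⟨t, ht⟩ : ∃ t, t = (g z).rep j0 := ⟨_, rfl⟩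
    have e1 : (g w).rep = (s / γ) • μ := by rw [hs]; exact h2 w
    have e2 : (g z).rep = (t / γ) • μ := by rw [ht]; exact h2 z
    rw [← hs] at h4
    refine ⟨t / s, ?_⟩
    rw [e1, e2, smul_smul]
    congr 1
    field_simp

end Pool.Agent.N154.AR
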