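import Pool.Agent.N154.GG.Defs

/-!
Rational points of projective varieties over number fields, and entire curves in the complex
varieties given by their embeddings.
-/

set_option autoImplicit false

open LinearAlgebra.Projectivization Pool.Agent.W602.GT Pool.Agent.N154.GG

namespace Pool.Agent.N154.AR

variable {n : ℕ} {ι ι' : Type} {k : Type} [Field k]

/-- The `E`-rational points of the projective variety `{F = 0}` in `ℙⁿ`, given by forms over the
subfield `k` of `E`. -/
def RatPts (F : ι → MvPolynomial (Fin (n + 1)) k) (E : Type) [Field E] [Algebra k E] :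
    Set (ℙ E (Fin (n + 1) → E)) :=
  {P | ∀ i, val P.rep (F i) = 0}

/-- For every finite extension `E` of `k`, only finitely many `E`-rational points of the variety
`{F = 0}` are not in `{Z = 0}`. -/
def FiniteOutside (F : ι → MvPolynomial (Fin (n + 1)) k)
    (Z : ι' → MvPolynomial (Fin (n + 1)) k) : Prop :=
  ∀ (E : Type) [Field E] [Algebra k E] [FiniteDimensional k E], (RatPts F E \ RatPts Z E).Finite

/-- For every finite extension `E` of `k`, the variety `{F = 0}` has only finitely many
`E`-rational points. -/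
def FinitelyManyPoints (F : ι → MvPolynomial (Fin (n + 1)) k) : Prop :=
  ∀ (E : Type) [Field E] [Algebra k E] [FiniteDimensional k E], (RatPts F E).Finite

/-- The equations of the complex variety `X_τ` given by an embedding `τ` of `k` in `ℂ`. -/
noncomputable def emb (τ : k →+* ℂ) (F : ι → MvPolynomial (Fin (n + 1)) k) :
    ι → MvPolynomial (Fin (n + 1)) ℂ :=
  fun i => MvPolynomial.map τ (F i)

/-- The point `p` of complex projective space is in the projective set `{Z = 0}`. -/
def On (Z : ι → MvPolynomial (Fin (n + 1)) ℂ) (p : ℙ ℂ (Fin (n + 1) → ℂ)) : Prop :=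
  ∀ i, val p.rep (Z i) = 0

/-- Every holomorphic map `ℂ → X_τ` is constant or has its image in `Z_τ` (`X = {F = 0}`). -/
def EntireIn (τ : k →+* ℂ) (F : ι → MvPolynomial (Fin (n + 1)) k)
    (Z : ι' → MvPolynomial (Fin (n + 1)) k) : Prop :=
  ∀ f : ℂ → ℙ ℂ (Fin (n + 1) → ℂ), HolIn (emb τ F) f →
    (∀ z w, f z = f w) ∨ ∀ z, On (emb τ Z) (f z)

/-- Every holomorphic map `ℂ / L → X_τ` from an elliptic curve is constant or has its image in
`Z_τ` (`X = {F = 0}`). -/
def EllipticIn (τ : k →+* ℂ) (F : ι → MvPolynomial (Fin (n + 1)) k)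
    (Z : ι' → MvPolynomial (Fin (n + 1)) k) : Prop :=
  ∀ (L : PeriodPair) (f : ℂ → ℙ ℂ (Fin (n + 1) → ℂ)), HolIn (emb τ F) f →
    (∀ l ∈ L.lattice, ∀ z, f (z + l) = f z) → (∀ z w, f z = f w) ∨ ∀ z, On (emb τ Z) (f z)

end Pool.Agent.N154.AR
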