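import Pool.Agent.N154.AR.AutC

/-! Descent of forms. -/

set_option autoImplicit false

namespace Pool.Agent.N154.AR

variable {k F : Type} [Field k] [CharZero k] [Field F] [Algebra k F] [IsAlgClosed F]

/-- the automorphisms of `F` over `k` -/
def Fix (k : Type) {F : Type} [Field k] [Field F] [Algebra k F] (σ : F ≃+* F) : Prop :=
  ∀ c : k, σ (algebraMap k F c) = algebraMap k F c

theorem Fix.symm {k F : Type} [Field k] [Field F] [Algebra k F] {σ : F ≃+* F} (h : Fix k σ) :
    Fix k σ.symm := fun c => by
  rw [RingEquiv.symm_apply_eq]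
  exact (h c).symm

theorem Fix.trans {k F : Type} [Field k] [Field F] [Algebra k F] {σ τ : F ≃+* F} (h : Fix k σ)
    (h' : Fix k τ) : Fix k (σ.trans τ) := fun c => by
  rw [RingEquiv.trans_apply, h c, h' c]

open Classical in
/-- the conjugates of independent numbers span -/
theorem span_conj {r : ℕ} {c : Fin r → F} (hc : LinearIndependent k c) :
    ∀ (N : ℕ) (v : Fin r → F), (Finset.univ.filter fun i => v i ≠ 0).card ≤ N →
      (∀ σ : F ≃+* F, Fix k σ → ∑ i, σ (c i) * v i = 0) → v = 0 := by
  intro N
  induction N with
  | zero =>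
    intro v hN _
    funext i
    by_contra hi
    have : i ∈ Finset.univ.filter fun i => v i ≠ 0 := by simpa using hi
    rw [Finset.card_eq_zero.1 (Nat.le_zero.1 hN)] at this
    exact absurd this (Finset.notMem_empty _)
  | succ N ih =>
    intro v hN h
    by_contra hv
    obtain ⟨i0, hi0⟩ := Function.ne_iff.1 hv
    have hi0' : v i0 ≠ 0 := hi0
    set w : Fin r → F := fun i => v i / v i0 with hw
    have hw1 : w i0 = 1 := div_self hi0'
    have hwh : ∀ σ : F ≃+* F, Fix k σ → ∑ i, σ (c i) * w i = 0 := by
      intro σ hσ
      have h1 := h σ hσ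
      have h2 : ∑ i, σ (c i) * w i = (∑ i, σ (c i) * v i) / v i0 := by
        rw [Finset.sum_div]
        exact Finset.sum_congr rfl fun i _ => by rw [hw]; ring
      rw [h2, h1, zero_div]
    have hfix : ∀ τ : F ≃+* F, Fix k τ → ∀ i, τ (w i) = w i := by
      intro τ hτ
      have h3 : (fun i => w i - τ (w i)) = 0 := by
        apply ih
        · have h4 : (Finset.univ.filter fun i => w i - τ (w i) ≠ 0) ⊆
              (Finset.univ.filter fun i => v i ≠ 0).erase i0 := by
            intro i hi
            simp only [Finset.mem_filter, Finset.mem_univ, true_and, Finset.mem_erase] at hi ⊢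
            constructor
            · rintro rfl
              apply hi
              rw [hw1, map_one, sub_self]
            · intro hvi
              apply hi
              have : w i = 0 := by rw [hw]; simp only [hvi, zero_div]
              rw [this, map_zero, sub_zero]
          have h5 := Finset.card_le_card h4
          have h6 : i0 ∈ Finset.univ.filter fun i => v i ≠ 0 := by simpa using hi0'
          rw [Finset.card_erase_of_mem h6] at h5
          omega
        · intro σ hσ
          have h4 := hwh σ hσ
          have h5 := congrArg τ (hwh (σ.trans τ.symm) (hσ.trans hτ.symm))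
          rw [map_zero, map_sum] at h5
          simp only [map_mul, RingEquiv.trans_apply, RingEquiv.apply_symm_apply] at h5
          simp only [mul_sub]
          rw [Finset.sum_sub_distrib, h4, h5, sub_self]
      intro i
      exact (sub_eq_zero.1 (congrFun h3 i)).symm
    choose u hu using fun i => fixed_aut (k := k) (x := w i) fun σ hσ => hfix σ hσ i
    have h4 := hwh (RingEquiv.refl F) fun c => rfl
    have h5 : ∑ i, u i • c i = 0 := by
      rw [← h4]
      refine Finset.sum_congr rfl fun i _ => ?_
      rw [Algebra.smul_def, hu i, RingEquiv.refl_apply, mul_comm]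
    have h6 := Fintype.linearIndependent_iff.1 hc u h5 i0
    have h7 := hu i0
    rw [h6, map_zero, hw1] at h7
    exact zero_ne_one h7

/-- forms over `F` are combinations of forms over `k` -/
theorem decomp {n d : ℕ} {G : MvPolynomial (Fin n) F} (hG : G.IsHomogeneous d) :
    ∃ (r : ℕ) (c : Fin r → F) (P : Fin r → MvPolynomial (Fin n) k), LinearIndependent k c ∧
      (∀ i, (P i).IsHomogeneous d) ∧
      G = ∑ i, MvPolynomial.C (c i) * MvPolynomial.map (algebraMap k F) (P i) := by
  classical
  let S : Submodule k F := Submodule.span k ((G.support.image fun m => G.coeff m : Finset F) : Set F)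
  have hS : Module.Finite k S := Module.Finite.span_finset k _
  let b := Module.finBasis k S
  have hmem : ∀ m, G.coeff m ∈ S := by
    intro m
    by_cases hm : G.coeff m = 0
    · rw [hm]
      exact S.zero_mem
    · apply Submodule.subset_span
      exact Finset.mem_coe.2 (Finset.mem_image.2 ⟨m, MvPolynomial.mem_support_iff.2 hm, rfl⟩)
  refine ⟨Module.finrank k S, fun i => (b i : F), fun i => ∑ m ∈ G.support,
    MvPolynomial.monomial m (b.repr ⟨G.coeff m, hmem m⟩ i), ?_, fun i => ?_, ?_⟩
  · exact b.linearIndependent.map' S.subtype (Submodule.ker_subtype S)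
  · refine MvPolynomial.IsHomogeneous.sum _ _ _ fun m hm => ?_
    refine MvPolynomial.isHomogeneous_monomial _ ?_
    have h1 := hG (MvPolynomial.mem_support_iff.1 hm)
    rw [← h1]
    exact congrArg (fun f => f m) (Finsupp.degree_eq_weight_one (σ := Fin n) (R := ℕ))
  · conv_lhs => rw [G.as_sum]
    simp only [map_sum, MvPolynomial.map_monomial, Finset.mul_sum, MvPolynomial.C_mul_monomial]
    rw [Finset.sum_comm]
    refine Finset.sum_congr rfl fun m _ => ?_
    rw [← map_sum]
    congr 1
    have h1 := congrArg (fun x : S => (x : F)) (b.sum_repr ⟨G.coeff m, hmem m⟩)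
    simp only [Submodule.coe_sum, Submodule.coe_smul] at h1
    refine h1.symm.trans (Finset.sum_congr rfl fun i _ => ?_)
    rw [Algebra.smul_def, mul_comm]

/-- **Descent.** If all conjugates of the form `G` vanish at all points of a set `W` and `G` does
not vanish at the point `y`, then some form over `k` vanishes at the points of `W` and not at `y`. -/
theorem descent {n d : ℕ} {G : MvPolynomial (Fin n) F} (hG : G.IsHomogeneous d)
    {W : Set (Fin n → F)} (hW : ∀ σ : F ≃+* F, Fix k σ → ∀ x ∈ W,
      MvPolynomial.eval x (MvPolynomial.map (σ : F →+* F) G) = 0) :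
    ∃ (r : ℕ) (c : Fin r → F) (P : Fin r → MvPolynomial (Fin n) k),
      (∀ i, (P i).IsHomogeneous d) ∧
      G = ∑ i, MvPolynomial.C (c i) * MvPolynomial.map (algebraMap k F) (P i) ∧
      ∀ i, ∀ x ∈ W, MvPolynomial.eval x (MvPolynomial.map (algebraMap k F) (P i)) = 0 := by
  obtain ⟨r, c, P, hc, hP, hGP⟩ := decomp (k := k) hG
  refine ⟨r, c, P, hP, hGP, fun i x hx => ?_⟩
  have h1 : (fun i => MvPolynomial.eval x (MvPolynomial.map (algebraMap k F) (P i))) = 0 := by
    refine span_conj hc _ _ le_rfl fun σ hσ => ?_
    have h2 := hW σ hσ x hx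
    rw [hGP, map_sum, map_sum] at h2
    rw [← h2]
    refine Finset.sum_congr rfl fun j _ => ?_
    have h3 : (σ : F →+* F).comp (algebraMap k F) = algebraMap k F := RingHom.ext fun a => hσ a
    rw [map_mul, map_mul, MvPolynomial.map_C, MvPolynomial.eval_C, MvPolynomial.map_map, h3]
    rfl
  exact congrFun h1 i

end Pool.Agent.N154.AR
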