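import Pool.Agent.N155.Ell
import Pool.Agent.N154.AR.Alg

/-! Elliptic functions are rational functions of `℘` and `℘'`. -/

set_option autoImplicit false

open Filter Topology Set Polynomial

namespace Pool.Agent.N154.AR

open Pool.Agent.N155

variable {L : PeriodPair}

/-- the function `f` is equal to an analytic function near `z`, except perhaps at `z` -/
def Good (f : ℂ → ℂ) (z : ℂ) : Prop := ∃ u : ℂ → ℂ, AnalyticAt ℂ u z ∧ f =ᶠ[𝓝[≠] z] u

theorem Good.shift {f : ℂ → ℂ} {z l : ℂ} (h : Good f z) (hl : ∀ w, f (w + l) = f w) :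
    Good f (z + l) := by
  obtain ⟨u, hu, hu'⟩ := h
  have h0 : z + l + -l = z := by ring
  refine ⟨fun w => u (w + -l), ?_, ?_⟩
  · have h1 : AnalyticAt ℂ u (z + l + -l) := by rwa [h0]
    exact h1.fun_comp_of_eq (g := u) (f := fun w => w + -l) (analyticAt_id.add analyticAt_const) rfl
  · have h1 : ∀ᶠ w in 𝓝[≠] (z + l + -l), f w = u w := by rw [h0]; exact hu'
    have h2 := punct_shift (-l) (z + l) h1
    filter_upwards [h2] with w hw
    rw [← hw]
    have := hl (w + -l)
    rw [neg_add_cancel_right] at this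
    exact this

/-- periodic functions without poles are constant -/
theorem per_const {f : ℂ → ℂ} (hf : Meromorphic f)
    (hper : ∀ l ∈ L.lattice, ∀ z, f (z + l) = f z) (ho : ∀ z, Good f z) :
    ∃ c, ∀ᶠ z in codiscrete ℂ, f z = c := by
  have h1 : ∀ z, AnalyticAt ℂ (toMeromorphicNFOn f univ) z := fun z => by
    obtain ⟨u, hu, hu'⟩ := ho z
    exact nf_an hf hu hu'
  refine ⟨toMeromorphicNFOn f univ 0, ?_⟩
  filter_upwards [nf_codis hf] with z hz
  rw [hz]
  exact ell_liouville L.indep (fun z => nf_per hf (hper _ L.ω₁_mem_lattice) z)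
    (fun z => nf_per hf (hper _ L.ω₂_mem_lattice) z) (fun z _ => h1 z) z 0

/-- analytic functions with a zero at the origin -/
theorem div_z {u : ℂ → ℂ} (hu : AnalyticAt ℂ u 0) (h0 : u 0 = 0) :
    ∃ v : ℂ → ℂ, AnalyticAt ℂ v 0 ∧ ∀ᶠ z in 𝓝 (0 : ℂ), u z = z * v z := by
  have h1 : ((1 : ℕ) : ℕ∞) ≤ analyticOrderAt u 0 := by
    rw [Nat.cast_one, Order.one_le_iff_ne_zero, hu.analyticOrderAt_ne_zero]
    exact h0
  obtain ⟨v, hv, hv'⟩ := (natCast_le_analyticOrderAt hu).1 h1
  refine ⟨v, hv, ?_⟩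
  filter_upwards [hv'] with z hz
  rw [hz, sub_zero, pow_one, smul_eq_mul]

theorem pfun (L : PeriodPair) : ∃ p : ℂ → ℂ, AnalyticAt ℂ p 0 ∧ p 0 = 1 ∧
    ∀ z, z ≠ 0 → z ^ 2 * L.weierstrassP z = p z := by
  refine ⟨fun z => z ^ 2 * L.weierstrassPExcept 0 z + 1, ?_, by simp, fun z hz => ?_⟩
  · exact ((analyticAt_id.pow 2).mul (L.analyticAt_weierstrassPExcept 0)).add analyticAt_const
  · have h1 := L.ite_eq_one_sub_sq_mul_weierstrassP 0 (zero_mem _) z
    rw [if_neg hz] at h1
    simpa using h1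

/-- even elliptic functions with poles only in the lattice -/
theorem even_lattice : ∀ (N : ℕ) (f : ℂ → ℂ), Meromorphic f →
    (∀ l ∈ L.lattice, ∀ z, f (z + l) = f z) → (∀ z, f (-z) = f z) →
    (∀ z ∉ L.lattice, Good f z) → Good (fun z => z ^ N * f z) 0 →
    ∃ A : ℂ[X], ∀ᶠ z in codiscrete ℂ, f z = A.eval (L.weierstrassP z) := by
  intro N
  induction N with
  | zero =>
    intro f hf hper _ hg h0
    have h0' : Good f 0 := by
      have : (fun z => z ^ 0 * f z) = f := by funext z; rw [pow_zero, one_mul]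
      rwa [this] at h0
    obtain ⟨c, hc⟩ := per_const hf hper fun z => by
      by_cases hz : z ∈ L.lattice
      · have := h0'.shift (hper z hz)
        rwa [zero_add] at this
      · exact hg z hz
    exact ⟨C c, by simpa using hc⟩
  | succ N ih =>
    intro f hf hper hev hg h0
    obtain ⟨u, hu, hu'⟩ := h0
    obtain ⟨p, hp, hp1, hpz⟩ := pfun L
    -- the symmetry of `u`
    have hsym : ∀ᶠ z in 𝓝[≠] (0 : ℂ), u (-z) = (-1) ^ (N + 1) * u z := by
      have h1 : ∀ᶠ z in 𝓝[≠] (0 : ℂ), (-z) ^ (N + 1) * f (-z) = u (-z) := by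
        have h2 : Tendsto (fun z : ℂ => -z) (𝓝[≠] 0) (𝓝[≠] 0) := by
          apply tendsto_nhdsWithin_of_tendsto_nhds_of_eventually_within
          · have : Tendsto (fun z : ℂ => -z) (𝓝 0) (𝓝 (-0)) := continuous_neg.tendsto 0
            rw [neg_zero] at this
            exact this.mono_left nhdsWithin_le_nhds
          · filter_upwards [self_mem_nhdsWithin] with z hz
            exact neg_ne_zero.2 hz
        exact h2.eventually hu'
      filter_upwards [h1, hu'] with z h2 h3
      rw [← h2, ← h3, hev, neg_pow]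
      ring
    rcases Nat.even_or_odd (N + 1) with hN | hN
    · obtain ⟨j, hj⟩ := hN
      set f1 : ℂ → ℂ := fun z => f z - u 0 * L.weierstrassP z ^ j with hf1
      have hf1m : Meromorphic f1 := by
        intro z
        exact (hf z).sub ((MeromorphicAt.const (u 0) z).mul ((L.meromorphic_weierstrassP z).pow j))
      have hper1 : ∀ l ∈ L.lattice, ∀ z, f1 (z + l) = f1 z := fun l hl z => by
        simp only [hf1]
        rw [hper l hl, L.weierstrassP_add_coe z ⟨l, hl⟩]
      have hev1 : ∀ z, f1 (-z) = f1 z := fun z => by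
        simp only [hf1]
        rw [hev, L.weierstrassP_neg]
      have hg1 : ∀ z ∉ L.lattice, Good f1 z := fun z hz => by
        obtain ⟨v, hv, hv'⟩ := hg z hz
        refine ⟨fun w => v w - u 0 * L.weierstrassP w ^ j,
          hv.sub (analyticAt_const.mul ((L.analyticOnNhd_weierstrassP z hz).pow j)), ?_⟩
        filter_upwards [hv'] with w hw
        simp only [hf1, hw]
      have h01 : Good (fun z => z ^ N * f1 z) 0 := by
        have h1 : AnalyticAt ℂ (fun z => u z - u 0 * p z ^ j) 0 :=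
          hu.sub (analyticAt_const.mul (hp.pow j))
        obtain ⟨v, hv, hv'⟩ := div_z h1 (by simp [hp1])
        refine ⟨v, hv, ?_⟩
        filter_upwards [hu', hv'.filter_mono nhdsWithin_le_nhds, self_mem_nhdsWithin] with z h2 h3 h4
        have h5 : z ≠ 0 := h4
        apply mul_left_cancel₀ h5
        rw [← h3, ← h2, ← hpz z h5]
        simp only [hf1]
        rw [mul_pow, ← pow_mul, show 2 * j = N + 1 by omega, pow_succ]
        ring
      obtain ⟨A, hA⟩ := ih f1 hf1m hper1 hev1 hg1 h01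
      refine ⟨A + C (u 0) * X ^ j, ?_⟩
      filter_upwards [hA] with z hz
      simp only [hf1] at hz
      rw [eval_add, eval_mul, eval_C, eval_pow, eval_X, ← hz]
      ring
    · have hu0 : u 0 = 0 := by
        have h1 : ContinuousAt (fun z => u (-z) - (-1) ^ (N + 1) * u z) 0 := by
          refine ContinuousAt.sub ?_ (continuousAt_const.mul hu.continuousAt)
          exact ContinuousAt.comp_of_eq hu.continuousAt continuous_neg.continuousAt neg_zero
        have h2 : (fun z => u (-z) - (-1) ^ (N + 1) * u z) =ᶠ[𝓝[≠] 0] fun _ => (0 : ℂ) := by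
          filter_upwards [hsym] with z hz
          rw [hz, sub_self]
        have h3 := ((h1.eventuallyEq_nhds_iff_eventuallyEq_nhdsNE continuousAt_const).1
          h2).self_of_nhds
        simp only [neg_zero, hN.neg_one_pow] at h3
        have h4 : 2 * u 0 = 0 := by linear_combination h3
        simpa using h4
      obtain ⟨v, hv, hv'⟩ := div_z hu hu0
      refine ih f hf hper hev hg ⟨v, hv, ?_⟩
      filter_upwards [hu', hv'.filter_mono nhdsWithin_le_nhds, self_mem_nhdsWithin] with z h2 h3 h4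
      have h5 : z ≠ 0 := h4
      apply mul_left_cancel₀ h5
      rw [← h3, ← h2]
      ring

theorem mero_ev {f : ℂ → ℂ} (hf : Meromorphic f) (A : ℂ[X]) : Meromorphic fun z => A.eval (f z) := by
  induction A using Polynomial.induction_on' with
  | add p q hp hq =>
    simp only [eval_add]
    exact hp.add hq
  | monomial n a =>
    simp only [eval_monomial]
    intro z
    exact (MeromorphicAt.const a z).mul ((hf z).pow n)

theorem an_ev {f : ℂ → ℂ} {z : ℂ} (hf : AnalyticAt ℂ f z) (A : ℂ[X]) :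
    AnalyticAt ℂ (fun z => A.eval (f z)) z := by
  induction A using Polynomial.induction_on' with
  | add p q hp hq =>
    simp only [eval_add]
    exact hp.add hq
  | monomial n a =>
    simp only [eval_monomial]
    exact analyticAt_const.mul (hf.pow n)

/-- differences have zeros -/
theorem div_sub {f : ℂ → ℂ} {p : ℂ} (hf : AnalyticAt ℂ f p) :
    ∃ v : ℂ → ℂ, AnalyticAt ℂ v p ∧ ∀ᶠ z in 𝓝 p, f z - f p = (z - p) * v z := by
  have h0 : AnalyticAt ℂ (fun z => f z - f p) p := hf.sub analyticAt_const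
  have h1 : ((1 : ℕ) : ℕ∞) ≤ analyticOrderAt (fun z => f z - f p) p := by
    rw [Nat.cast_one, Order.one_le_iff_ne_zero, h0.analyticOrderAt_ne_zero]
    exact sub_self _
  obtain ⟨v, hv, hv'⟩ := (natCast_le_analyticOrderAt h0).1 h1
  refine ⟨v, hv, ?_⟩
  filter_upwards [hv'] with z hz
  rw [hz, pow_one, smul_eq_mul]

/-- even elliptic functions are rational functions of `℘` -/
theorem even_rat {f : ℂ → ℂ} (hf : Meromorphic f) (hper : ∀ l ∈ L.lattice, ∀ z, f (z + l) = f z)
    (hev : ∀ z, f (-z) = f z) : ∃ A C : ℂ[X], C ≠ 0 ∧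
      ∀ᶠ z in codiscrete ℂ, C.eval (L.weierstrassP z) * f z = A.eval (L.weierstrassP z) := by
  classical
  set r := ‖L.ω₁‖ + ‖L.ω₂‖ with hr
  have hU : {z | AnalyticAt ℂ f z} ∈ codiscrete ℂ := mero_an hf
  set U := {z | AnalyticAt ℂ f z} with hUdef
  have hSfin : (Uᶜ ∩ Metric.closedBall 0 r).Finite := by
    have h1 : IsCompact (Uᶜ ∩ Metric.closedBall (0 : ℂ) r) :=
      (isCompact_closedBall (0 : ℂ) r).inter_left (codis_open hU).isClosed_compl
    exact h1.finite ((mem_codiscrete'.1 hU).2.mono inter_subset_left)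
  choose m hm using fun p => hf p
  set S := hSfin.toFinset with hS
  set C : ℂ[X] := ∏ p ∈ S, (X - Polynomial.C (L.weierstrassP p)) ^ m p with hC
  have hC0 : C ≠ 0 := Finset.prod_ne_zero_iff.2 fun p _ => pow_ne_zero _ (X_sub_C_ne_zero _)
  have hCe : ∀ z, C.eval (L.weierstrassP z) =
      ∏ p ∈ S, (L.weierstrassP z - L.weierstrassP p) ^ m p := fun z => by
    rw [hC, eval_prod]
    exact Finset.prod_congr rfl fun p _ => by rw [eval_pow, eval_sub, eval_X, eval_C]
  set f1 : ℂ → ℂ := fun z => C.eval (L.weierstrassP z) * f z with hf1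
  have hf1m : Meromorphic f1 := (mero_ev L.meromorphic_weierstrassP C).mul hf
  have hper1 : ∀ l ∈ L.lattice, ∀ z, f1 (z + l) = f1 z := fun l hl z => by
    simp only [hf1]
    rw [hper l hl, L.weierstrassP_add_coe z ⟨l, hl⟩]
  have hev1 : ∀ z, f1 (-z) = f1 z := fun z => by
    simp only [hf1]
    rw [hev, L.weierstrassP_neg]
  have hg0 : ∀ z ∉ L.lattice, ‖z‖ ≤ r → Good f1 z := by
    intro z hz hzr
    have hPz : AnalyticAt ℂ L.weierstrassP z := L.analyticOnNhd_weierstrassP z hz
    by_cases hzU : z ∈ U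
    · exact ⟨f1, (an_ev hPz C).mul hzU, EventuallyEq.refl _ _⟩
    · have hzS : z ∈ S := hSfin.mem_toFinset.2 ⟨hzU, by rwa [mem_closedBall_zero_iff]⟩
      obtain ⟨v, hv, hv'⟩ := div_sub hPz
      refine ⟨fun w => v w ^ m z * (∏ p ∈ S.erase z, (L.weierstrassP w - L.weierstrassP p) ^ m p) *
        ((w - z) ^ m z • f w), ?_, ?_⟩
      · refine AnalyticAt.mul (AnalyticAt.mul (hv.pow _) ?_) (hm z)
        exact Finset.analyticAt_fun_prod _ fun p _ => (hPz.sub analyticAt_const).pow _
      · filter_upwards [hv'.filter_mono nhdsWithin_le_nhds] with w hw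
        simp only [hf1]
        rw [hCe, ← Finset.mul_prod_erase S _ hzS, hw, mul_pow, smul_eq_mul]
        ring
  have hg : ∀ z ∉ L.lattice, Good f1 z := by
    intro z hz
    obtain ⟨a, b, hab⟩ := exists_shift L.indep z
    set l : ℂ := a * L.ω₁ + b * L.ω₂ with hl
    have hlL : l ∈ L.lattice := PeriodPair.mem_lattice.2 ⟨a, b, rfl⟩
    have h1 : z + l ∉ L.lattice := fun h => hz (by
      have := sub_mem h hlL
      rwa [add_sub_cancel_right] at this)
    have h2 := (hg0 _ h1 hab).shift (hper1 _ (neg_mem hlL))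
    rwa [add_neg_cancel_right] at h2
  obtain ⟨N, hN⟩ := hf1m 0
  have h0 : Good (fun z => z ^ N * f1 z) 0 := ⟨_, hN, by
    filter_upwards with z
    rw [sub_zero, smul_eq_mul]⟩
  obtain ⟨A, hA⟩ := even_lattice (L := L) N f1 hf1m hper1 hev1 hg h0
  exact ⟨A, C, hC0, hA⟩

theorem mero_neg {f : ℂ → ℂ} (hf : Meromorphic f) : Meromorphic fun z => f (-z) := by
  intro z
  exact (hf (-z)).comp_analyticAt (g := fun z => -z) analyticAt_id.neg

theorem codis_lattice (L : PeriodPair) : ∀ᶠ z in codiscrete ℂ, z ∉ L.lattice := by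
  apply codis_of_ev
  intro x
  have h := L.compl_lattice_sdiff_singleton_mem_nhds x
  filter_upwards [mem_nhdsWithin_of_mem_nhds h, self_mem_nhdsWithin] with z hz hz2 hz3
  exact hz ⟨hz3, hz2⟩

/-- elliptic functions are rational functions of `℘` and `℘'` -/
theorem all_rat {f : ℂ → ℂ} (hf : Meromorphic f) (hper : ∀ l ∈ L.lattice, ∀ z, f (z + l) = f z) :
    ∃ A B C : ℂ[X], C ≠ 0 ∧ ∀ᶠ z in codiscrete ℂ, C.eval (L.weierstrassP z) * f z =
      A.eval (L.weierstrassP z) + L.derivWeierstrassP z * B.eval (L.weierstrassP z) := by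
  have hpn : ∀ l ∈ L.lattice, ∀ z, f (-(z + l)) = f (-z) := fun l hl z => by
    rw [neg_add]
    exact hper _ (neg_mem hl) _
  obtain ⟨A1, C1, h1, h1'⟩ := even_rat (L := L) (f := fun z => f z + f (-z))
    (hf.add (mero_neg hf)) (fun l hl z => by simp only [hper l hl, hpn l hl])
    (fun z => by simp only [neg_neg]; ring)
  obtain ⟨A2, C2, h2, h2'⟩ := even_rat (L := L) (f := fun z => (f z - f (-z)) *
    L.derivWeierstrassP z) ((hf.sub (mero_neg hf)).mul L.meromorphic_derivWeierstrassP)
    (fun l hl z => by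
      simp only [hper l hl, hpn l hl]
      rw [L.derivWeierstrassP_add_coe z ⟨l, hl⟩])
    (fun z => by simp only [neg_neg, L.derivWeierstrassP_neg]; ring)
  refine ⟨C2 * Qc L.g₂ L.g₃ * A1, C1 * A2, C 2 * C1 * C2 * Qc L.g₂ L.g₃, ?_, ?_⟩
  · exact mul_ne_zero (mul_ne_zero (mul_ne_zero (C_ne_zero.2 two_ne_zero) h1) h2) (Qc_ne _ _)
  · filter_upwards [h1', h2', codis_lattice L] with z e1 e2 hz
    have e3 := L.derivWeierstrassP_sq z hz
    simp only [eval_mul, Qc_eval, eval_C]
    rw [← e1, ← e2]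
    rw [← e3]
    ring

end Pool.Agent.N154.AR
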