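import Pool.Agent.N154.AR.Kob
import Pool.Agent.N154.TT.AGeo

/-! Projective manifolds over number fields with maps to complex tori. -/

set_option autoImplicit false

open Filter Topology Metric Set LinearAlgebra.Projectivization

namespace Pool.Agent.N154.AR

open Pool.Agent.W602.GT Pool.Agent.N154.GG
open Pool.Agent.N154.TT (RiemannForm)

variable {n d m : ℕ} {ι ι' : Type} {k : Type} [Field k] [NumberField k]

theorem val_emb (τ : k →+* ℂ) (G : MvPolynomial (Fin (n + 1)) k) (v : Fin (n + 1) → ℂ) :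
    val v (MvPolynomial.map τ G) = MvPolynomial.eval₂ τ v G := by
  unfold val
  rw [MvPolynomial.aeval_def, MvPolynomial.eval₂_map]
  rfl

theorem val_eval' (G : MvPolynomial (Fin (n + 1)) ℂ) (v : Fin (n + 1) → ℂ) :
    val v G = MvPolynomial.eval v G := rfl

/-- curves of genus at most one, two embeddings -/
theorem elliptic_of (σ τ : k →+* ℂ) {F : ι → MvPolynomial (Fin (n + 1)) k}
    {Z : ι' → MvPolynomial (Fin (n + 1)) k} (hF : ∀ i, IsForm (F i)) (hZ : ∀ i, IsForm (Z i))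
    (h : EllipticIn τ F Z) : EllipticIn σ F Z := by
  intro L f hf hL
  by_contra hcon
  push Not at hcon
  obtain ⟨h1, z, hz⟩ := hcon
  have hz' : ∃ i, val (f z).rep (MvPolynomial.map σ (Z i)) ≠ 0 := by
    by_contra h2
    push Not at h2
    exact hz h2
  obtain ⟨i, hi⟩ := hz'
  obtain ⟨g, hg, ⟨L', hL'⟩, hgF, ⟨w, j, hgZ⟩, hgn⟩ := other_embedding σ τ hF hZ hf.1 hL
    (fun z i => by rw [← val_emb]; exact (hf.2 z).2 i) ⟨z, i, by rw [← val_emb]; exact hi⟩
    (fun h => h1.elim fun z hz => hz.elim fun w hw => hw (h z w))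
  rcases h L' g ⟨hg, fun z => ⟨(g z).rep_nonzero, fun i => (val_emb τ _ _).trans (hgF z i)⟩⟩ hL'
    with h2 | h2
  · exact hgn h2
  · exact hgZ ((val_emb τ _ _).symm.trans (h2 w j))

/-- many rational points -/
theorem elliptic_of_finite (σ : k →+* ℂ) {F : ι → MvPolynomial (Fin (n + 1)) k}
    {Z : ι' → MvPolynomial (Fin (n + 1)) k} (hF : ∀ i, IsForm (F i)) (hZ : ∀ i, IsForm (Z i))
    (h : FiniteOutside F Z) : EllipticIn σ F Z := by
  intro L f hf hL
  by_contra hcon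
  push Not at hcon
  obtain ⟨h1, z, hz⟩ := hcon
  have hz' : ∃ i, val (f z).rep (MvPolynomial.map σ (Z i)) ≠ 0 := by
    by_contra h2
    push Not at h2
    exact hz h2
  obtain ⟨i, hi⟩ := hz'
  obtain ⟨E, _, _, _, hE⟩ := exists_infinite σ hF hZ hf.1 hL
    (fun z i => by rw [← val_emb]; exact (hf.2 z).2 i) ⟨z, i, by rw [← val_emb]; exact hi⟩
    (fun h => h1.elim fun z hz => hz.elim fun w hw => hw (h z w))
  exact hE (h E)

theorem isForm_of_map (σ : k →+* ℂ) {G : MvPolynomial (Fin (n + 1)) k}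
    (h : IsForm (MvPolynomial.map σ G)) : IsForm G := by
  obtain ⟨d, hd⟩ := h
  refine ⟨d, fun m hm => ?_⟩
  apply hd
  rw [MvPolynomial.coeff_map]
  exact (map_ne_zero σ).2 hm

/-- the empty variety -/
theorem elliptic_one {τ : k →+* ℂ} {F : ι → MvPolynomial (Fin (n + 1)) k} :
    EllipticIn τ F (fun _ : Unit => (1 : MvPolynomial (Fin (n + 1)) k)) ↔
      ∀ (L : PeriodPair) (f : ℂ → ℙ ℂ (Fin (n + 1) → ℂ)), HolIn (emb τ F) f →
        (∀ l ∈ L.lattice, ∀ z, f (z + l) = f z) → ∀ z w, f z = f w := by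
  constructor
  · intro h L f hf hL
    refine (h L f hf hL).resolve_right fun h1 => ?_
    have := h1 0 ()
    rw [emb, map_one] at this
    simp [val] at this
  · intro h L f hf hL
    exact Or.inl (h L f hf hL)

/-- **Projective manifolds over complex tori.** -/
theorem torus_arith (F : ι → MvPolynomial (Fin (n + 1)) k) (σ : k →+* ℂ) {K : Type} [Field K]
    [Algebra ℂ K] {y : Fin (n + 1) → K} (hX : SmoothVariety (emb σ F) d y) {κ : Type}
    {η : κ → (Fin (n + 1) → ℂ) → (Fin (n + 1) → ℂ) → (Fin (n + 1) → ℂ) → ℂ}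
    (hη : PositiveTwoForms (Cone (emb σ F)) d η) {Λ : Submodule ℤ (Fin m → ℂ)}
    [DiscreteTopology Λ] [IsZLattice ℝ Λ] {α : (Fin (n + 1) → ℂ) → (Fin m → ℂ) ⧸ Λ}
    (hα : Pool.Agent.N154.TT.HolToTorus (Cone (emb σ F)) Λ α)
    (hfib : HyperbolicFibres (emb σ F) α) :
    List.TFAE [
      ∃ c : ℝ, 0 < c ∧ ∀ p q : ℙ ℂ (Fin (n + 1) → ℂ), p.rep ∈ Cone (emb σ F) →
        q.rep ∈ Cone (emb σ F) → ENNReal.ofReal (c * projDist p q) ≤ kobayashi (Cone (emb σ F)) p q,
      ∀ f, HolIn (emb σ F) f → ∀ z w, f z = f w,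
      ∀ (τ : k →+* ℂ) (L : PeriodPair) (f : ℂ → ℙ ℂ (Fin (n + 1) → ℂ)), HolIn (emb τ F) f →
        (∀ l ∈ L.lattice, ∀ z, f (z + l) = f z) → ∀ z w, f z = f w,
      ∃ τ : k →+* ℂ, ∀ (L : PeriodPair) (f : ℂ → ℙ ℂ (Fin (n + 1) → ℂ)), HolIn (emb τ F) f →
        (∀ l ∈ L.lattice, ∀ z, f (z + l) = f z) → ∀ z w, f z = f w] ∧
    (FinitelyManyPoints F → ∃ c : ℝ, 0 < c ∧ ∀ p q : ℙ ℂ (Fin (n + 1) → ℂ),
      p.rep ∈ Cone (emb σ F) → q.rep ∈ Cone (emb σ F) →
        ENNReal.ofReal (c * projDist p q) ≤ kobayashi (Cone (emb σ F)) p q) := by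
  have hF : ∀ i, IsForm (F i) := fun i => isForm_of_map σ (hX.form i)
  have h1 : ∀ i : Unit, IsForm ((fun _ : Unit => (1 : MvPolynomial (Fin (n + 1)) k)) i) :=
    fun _ => ⟨0, MvPolynomial.isHomogeneous_one _ _⟩
  have hmain := (Pool.Agent.N154.TT.lang_geo hX hη hα hfib).2
  refine ⟨?_, fun h => ?_⟩
  · tfae_have 1 → 2 := by
      rintro ⟨c, hc, h⟩ f hf z w
      by_contra hne
      have e1 := h (f z) (f w) (hf.2 z) (hf.2 w)
      rw [kob_zero hf.1 hf.2 z w, nonpos_iff_eq_zero, ENNReal.ofReal_eq_zero] at e1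
      have e2 := projDist_pos hne
      have := mul_pos hc e2
      linarith
    tfae_have 2 → 3 := by
      intro h τ
      rw [← elliptic_one]
      refine elliptic_of τ σ hF h1 (elliptic_one.2 fun L f hf _ => h f hf)
    tfae_have 3 → 4 := fun h => ⟨σ, h σ⟩
    tfae_have 4 → 1 := by
      rintro ⟨τ, h⟩
      rw [← elliptic_one] at h
      exact hmain (elliptic_one.1 (elliptic_of σ τ hF h1 h))
    tfae_finish
  · refine hmain (elliptic_one.1 (elliptic_of_finite σ hF h1 fun E _ _ _ => ?_))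
    exact (h E).subset diff_subset

end Pool.Agent.N154.AR
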