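import Pool.Agent.N154.AR.Geo

/-! Projective manifolds over number fields with maps to abelian varieties. -/

set_option autoImplicit false

open Filter Topology Metric Set LinearAlgebra.Projectivization

namespace Pool.Agent.N154.AR

open Pool.Agent.W602.GT Pool.Agent.N154.GG
open Pool.Agent.N154.TT (RiemannForm)

variable {n d m : ℕ} {ι ι' : Type} {k : Type} [Field k] [NumberField k]

/-- **The special set.** -/
theorem abel_arith (F : ι → MvPolynomial (Fin (n + 1)) k) (σ : k →+* ℂ) {K : Type} [Field K]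
    [Algebra ℂ K] {y : Fin (n + 1) → K} (hX : SmoothVariety (emb σ F) d y) {κ : Type}
    {η : κ → (Fin (n + 1) → ℂ) → (Fin (n + 1) → ℂ) → (Fin (n + 1) → ℂ) → ℂ}
    (hη : PositiveTwoForms (Cone (emb σ F)) d η) {Λ : Submodule ℤ (Fin m → ℂ)}
    [DiscreteTopology Λ] [IsZLattice ℝ Λ] {H : (Fin m → ℂ) → (Fin m → ℂ) → ℂ}
    (hH : RiemannForm Λ H) {α : (Fin (n + 1) → ℂ) → (Fin m → ℂ) ⧸ Λ}
    (hα : Pool.Agent.N154.TT.HolToTorus (Cone (emb σ F)) Λ α)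
    (hfib : HyperbolicFibres (emb σ F) α) :
    ∃ (ι₀ : Type) (Z₀ : ι₀ → MvPolynomial (Fin (n + 1)) k), (∀ i, IsForm (Z₀ i)) ∧
      (∀ s, On (emb σ Z₀) s → On (emb σ F) s) ∧ (2 ≤ d → ∃ i, val y (emb σ Z₀ i) ≠ 0) ∧
      (∀ f, HolIn (emb σ F) f → (∀ z w, f z = f w) ∨ ∀ z, On (emb σ Z₀) (f z)) ∧
      (∀ f, PunctIn (emb σ F) f → Extends (emb σ F) f ∨ ∀ z ∈ PDisc, On (emb σ Z₀) (f z)) ∧
      (∀ ε : ℝ, 0 < ε → ∃ c : ℝ, 0 < c ∧ ∀ p q : ℙ ℂ (Fin (n + 1) → ℂ), p.rep ∈ Cone (emb σ F) →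
        q.rep ∈ Cone (emb σ F) → ∀ D : ℝ, 0 ≤ D → D ≤ 1 →
        (∀ s, On (emb σ Z₀) s → D ≤ projDist p s) →
          ENNReal.ofReal (c * D ^ ε * min D (projDist p q)) ≤ kobayashi (Cone (emb σ F)) p q) ∧
      ∀ (ι' : Type) (Z : ι' → MvPolynomial (Fin (n + 1)) k), (∀ i, IsForm (Z i)) →
        List.TFAE [
          ∀ s, On (emb σ Z₀) s → On (emb σ Z) s,
          EntireIn σ F Z,
          ∀ τ : k →+* ℂ, EllipticIn τ F Z,
          ∃ τ : k →+* ℂ, EllipticIn τ F Z] ∧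
        (FiniteOutside F Z → ∀ s, On (emb σ Z₀) s → On (emb σ Z) s) := by
  classical
  have hF : ∀ i, IsForm (F i) := fun i => isForm_of_map σ (hX.form i)
  obtain ⟨S, hSfin, hS, hSe, hSp, hSk, -, hSd⟩ :=
    Pool.Agent.N154.TT.abel_geo hX hη hH hα hfib
  have hSne : ∀ g ∈ S, ¬ ∀ z w, g z = g w := by
    intro g hg hc
    obtain ⟨-, -, v, w, hv, hvw⟩ := hS g hg
    exact Pool.Agent.N154.TT.mk_line_ne hv fun z => by rw [← hvw z, ← hvw 0, hc z 0]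
  -- forms which vanish on `S`
  let ι₀ : Type := {P : MvPolynomial (Fin (n + 1)) k // IsForm P ∧
    ∀ g ∈ S, ∀ z, val (g z).rep (MvPolynomial.map σ P) = 0}
  let Z₀ : ι₀ → MvPolynomial (Fin (n + 1)) k := Subtype.val
  have hZS : ∀ g ∈ S, ∀ z, On (emb σ Z₀) (g z) := fun g hg z i => i.2.2 g hg z
  have hent : ∀ (ι' : Type) (Z : ι' → MvPolynomial (Fin (n + 1)) k),
      (∀ g ∈ S, ∀ z, On (emb σ Z) (g z)) → EntireIn σ F Z := by
    intro ι' Z h f hf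
    rcases hSe f hf with h1 | ⟨g, hg, s, -, hs⟩
    · exact Or.inl h1
    · right
      intro z
      rw [hs z]
      exact h g hg _
  have hcont : ∀ (ι' : Type) (Z : ι' → MvPolynomial (Fin (n + 1)) k), (∀ i, IsForm (Z i)) →
      (∀ g ∈ S, ∀ z, On (emb σ Z) (g z)) → ∀ s, On (emb σ Z₀) s → On (emb σ Z) s := by
    intro ι' Z hZ h s hs i
    exact hs ⟨Z i, hZ i, fun g hg z => h g hg z i⟩
  have hell : ∀ (ι' : Type) (Z : ι' → MvPolynomial (Fin (n + 1)) k),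
      EllipticIn σ F Z → ∀ g ∈ S, ∀ z, On (emb σ Z) (g z) := by
    intro ι' Z h g hg
    obtain ⟨h1, ⟨L, hL⟩, -⟩ := hS g hg
    exact (h L g h1 hL).resolve_left (hSne g hg)
  refine ⟨ι₀, Z₀, fun i => i.2.1, hcont ι F hF fun g hg z => ((hS g hg).1.2 z).2, fun hd => ?_,
    hent ι₀ Z₀ hZS, ?_, ?_, ?_⟩
  · obtain ⟨G, ⟨e, hG⟩, hGy, hGS⟩ := hSd hd
    let _ : Algebra k ℂ := σ.toAlgebra
    have hvan : ∀ γ : ℂ ≃+* ℂ, Fix k γ → ∀ x ∈ {x | ∃ g ∈ S, ∃ z, x = (g z).rep},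
        MvPolynomial.eval x (MvPolynomial.map (γ : ℂ →+* ℂ) G) = 0 := by
      rintro γ hγ _ ⟨g, hg, z, rfl⟩
      obtain ⟨h1, ⟨L, hL⟩, -⟩ := hS g hg
      refine van_conj σ hF hG ?_ γ hγ h1.1 hL (fun z i => ?_) (hSne g hg) z
      · intro f hf hfF hfn w
        rcases hSe f ⟨hf, fun z => ⟨(f z).rep_nonzero, fun i => (val_emb σ _ _).trans (hfF z i)⟩⟩
          with h2 | ⟨g', hg', s, -, hs⟩
        · exact absurd h2 hfn
        · rw [hs w]
          exact hGS g' hg' _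
      · rw [← val_emb]
        exact (h1.2 z).2 i
    obtain ⟨r, c, P, hP, hGP, hPW⟩ := descent (k := k) hG hvan
    by_contra hno
    push Not at hno
    apply hGy
    rw [hGP]
    unfold val
    rw [map_sum]
    refine Finset.sum_eq_zero fun i _ => ?_
    rw [map_mul]
    have h1 := hno ⟨P i, ⟨e, hP i⟩, fun g hg z => hPW i _ ⟨g, hg, z, rfl⟩⟩
    have h2 : MvPolynomial.aeval y (MvPolynomial.map (algebraMap k ℂ) (P i)) = 0 := h1
    rw [h2, mul_zero]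
  · intro f hf
    rcases hSp f hf with h1 | ⟨g, hg, s, -, hs⟩
    · exact Or.inl h1
    · right
      intro z hz
      obtain ⟨h2, h3⟩ := log_mem_HP hz
      have h4 := hs (Complex.log z) h2
      rw [h3] at h4
      rw [h4]
      exact hZS g hg _
  · intro ε hε
    obtain ⟨c, hc, h⟩ := hSk ε hε
    exact ⟨c, hc, fun p q hp hq D hD0 hD1 hD => h p q hp hq D hD0 hD1 fun g hg z =>
      hD _ (hZS g hg z)⟩
  · intro ι' Z hZ
    have key : EllipticIn σ F Z → ∀ s, On (emb σ Z₀) s → On (emb σ Z) s := fun h =>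
      hcont ι' Z hZ (hell ι' Z h)
    refine ⟨?_, fun h => key (elliptic_of_finite σ hF hZ h)⟩
    tfae_have 1 → 2 := fun h => hent ι' Z fun g hg z => h _ (hZS g hg z)
    tfae_have 2 → 3 := fun h τ => elliptic_of τ σ hF hZ fun L f hf _ => h f hf
    tfae_have 3 → 4 := fun h => ⟨σ, h σ⟩
    tfae_have 4 → 1 := by
      rintro ⟨τ, h⟩
      exact key (elliptic_of σ τ hF hZ h)
    tfae_finish

end Pool.Agent.N154.AR
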