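import Mathlib

/-! Infinitely many points on `y² = 4 x³ - a x - b` over a finite extension. -/

set_option autoImplicit false

open Polynomial

namespace Pool.Agent.N154.AR

variable {κ : Type} [Field κ]

theorem exists_abv2 (κ : Type) [Field κ] [NumberField κ] :
    ∃ v : AbsoluteValue κ ℝ, IsNonarchimedean v ∧ v 2 < 1 := by
  have h1 : ¬ IsUnit (2 : NumberField.RingOfIntegers κ) := by
    intro h
    obtain ⟨u, hu⟩ := h.exists_right_inv
    have h2 : (2 : κ) * (u : κ) = 1 := by
      have := congrArg (algebraMap (NumberField.RingOfIntegers κ) κ) hu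
      rwa [map_mul, map_one, map_ofNat] at this
    have h3 : IsIntegral ℤ (u : κ) := u.2
    have h4 : (u : κ) = algebraMap ℚ κ (1 / 2) := by
      rw [map_div₀, map_one, map_ofNat, eq_div_iff two_ne_zero, mul_comm]
      exact h2
    rw [h4, isIntegral_algebraMap_iff (algebraMap ℚ κ).injective] at h3
    obtain ⟨y, hy⟩ := IsIntegrallyClosed.isIntegral_iff.1 h3
    have h5 : (2 * y : ℤ) = 1 := by
      have : (2 * (y : ℚ)) = 1 := by
        rw [eq_intCast] at hy
        rw [hy]
        norm_num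
      exact_mod_cast this
    omega
  obtain ⟨m, hm, hle⟩ := Ideal.exists_le_maximal (Ideal.span {(2 : NumberField.RingOfIntegers κ)})
    (fun h => h1 (Ideal.span_singleton_eq_top.1 h))
  have h2 : (2 : NumberField.RingOfIntegers κ) ∈ m := hle (Ideal.mem_span_singleton_self _)
  have h3 : m ≠ ⊥ := by
    rintro rfl
    rw [Ideal.mem_bot] at h2
    exact two_ne_zero h2
  let w : IsDedekindDomain.HeightOneSpectrum (NumberField.RingOfIntegers κ) := ⟨m, hm.isPrime, h3⟩
  refine ⟨NumberField.HeightOneSpectrum.adicAbv κ w,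
    NumberField.HeightOneSpectrum.isNonarchimedean_adicAbv κ w, ?_⟩
  have h4 := (w.adicAbv_coe_lt_one_iff (K := κ)
    (NumberField.HeightOneSpectrum.one_lt_absNorm_nnreal w) 2).2 h2
  have h5 : ((2 : NumberField.RingOfIntegers κ) : κ) = 2 := map_ofNat _ 2
  rwa [show algebraMap (NumberField.RingOfIntegers κ) κ 2 = 2 from h5] at h4

/-- the first coordinate of the double of a point -/
def dbl (a b x : κ) : κ :=
  (16 * x ^ 4 + 8 * a * x ^ 2 + 32 * b * x + a ^ 2) / (16 * (4 * x ^ 3 - a * x - b))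

/-- `x` is large -/
def Big (v : AbsoluteValue κ ℝ) (a b x : κ) : Prop :=
  v a < v 4 * v x ^ 2 ∧ v b < v 4 * v x ^ 3

theorem one_add {v : AbsoluteValue κ ℝ} (hv : IsNonarchimedean v) {w : κ} (hw : v w < 1) :
    v (1 + w) = 1 := by
  apply le_antisymm
  · refine (hv 1 w).trans ?_
    rw [map_one]
    exact max_le le_rfl hw.le
  · have h1 : (1 : κ) = (1 + w) + (-w) := by ring
    have h2 := hv (1 + w) (-w)
    rw [← h1, map_one, v.map_neg] at h2
    rcases le_max_iff.1 h2 with h | h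
    · exact h
    · exact absurd h (not_le.2 hw)

theorem Big.dbl {v : AbsoluteValue κ ℝ} (hv : IsNonarchimedean v) (h2 : v 2 < 1)
    (h20 : (2 : κ) ≠ 0) {a b x : κ} (h : Big v a b x) :
    4 * x ^ 3 - a * x - b ≠ 0 ∧ v x < v (dbl a b x) ∧ Big v a b (dbl a b x) := by
  have hv2 : 0 < v 2 := v.pos h20
  have h4 : (4 : κ) = 2 * 2 := by norm_num
  have h40 : (4 : κ) ≠ 0 := by rw [h4]; exact mul_ne_zero h20 h20
  have hv4 : v 4 = v 2 * v 2 := by rw [h4, map_mul]
  have hv4p : 0 < v 4 := v.pos h40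
  have hv4l : v 4 < 1 := by rw [hv4]; nlinarith
  have hx : x ≠ 0 := by
    rintro rfl
    have := h.1
    rw [map_zero] at this
    have := v.nonneg a
    nlinarith
  have hvx : 0 < v x := v.pos hx
  set s : κ := a / (4 * x ^ 2) with hs
  set t : κ := b / (4 * x ^ 3) with ht
  have hsl : v s < 1 := by
    rw [hs, map_div₀, map_mul, map_pow, div_lt_one (by positivity)]
    exact h.1
  have htl : v t < 1 := by
    rw [ht, map_div₀, map_mul, map_pow, div_lt_one (by positivity)]
    exact h.2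
  have ha : a = 4 * x ^ 2 * s := by rw [hs]; field_simp
  have hb : b = 4 * x ^ 3 * t := by rw [ht]; field_simp
  have hw1 : v (2 * s + (8 * t + s ^ 2)) < 1 := by
    refine lt_of_le_of_lt (hv _ _) (max_lt ?_ (lt_of_le_of_lt (hv _ _) (max_lt ?_ ?_)))
    · rw [map_mul]
      have := v.nonneg s
      nlinarith
    · rw [show (8 : κ) = 2 * 2 * 2 by norm_num, map_mul, map_mul, map_mul]
      have h5 := v.nonneg t
      have h6 : v 2 * v 2 * v 2 ≤ 1 := by
        have : v 2 * v 2 ≤ 1 := by nlinarith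
        nlinarith
      have h7 : v 2 * v 2 * v 2 * v t ≤ 1 * v t := mul_le_mul_of_nonneg_right h6 h5
      linarith
    · rw [map_pow]
      have := v.nonneg s
      nlinarith
  have hw2 : v (-s + -t) < 1 := by
    refine lt_of_le_of_lt (hv _ _) (max_lt ?_ ?_)
    · rwa [v.map_neg]
    · rwa [v.map_neg]
  have e1 : 4 * x ^ 3 - a * x - b = 4 * x ^ 3 * (1 + (-s + -t)) := by rw [ha, hb]; ring
  have h10 : (1 : κ) + (-s + -t) ≠ 0 := by
    intro h0
    have := one_add hv hw2
    rw [h0, map_zero] at this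
    exact zero_ne_one this
  have hQ : 4 * x ^ 3 - a * x - b ≠ 0 := by
    rw [e1]
    exact mul_ne_zero (mul_ne_zero h40 (pow_ne_zero _ hx)) h10
  have e2 : Pool.Agent.N154.AR.dbl a b x =
      x / 4 * (1 + (2 * s + (8 * t + s ^ 2))) / (1 + (-s + -t)) := by
    unfold Pool.Agent.N154.AR.dbl
    rw [e1]
    have h160 : (16 : κ) ≠ 0 := by
      rw [show (16 : κ) = 4 * 4 by norm_num]; exact mul_ne_zero h40 h40
    rw [div_eq_div_iff (mul_ne_zero h160 (mul_ne_zero (mul_ne_zero h40 (pow_ne_zero _ hx)) h10))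
      h10]
    rw [ha, hb]
    field_simp
    ring
  have e3 : v (Pool.Agent.N154.AR.dbl a b x) = v x / v 4 := by
    rw [e2, map_div₀, map_mul, map_div₀, one_add hv hw1, one_add hv hw2, mul_one, div_one]
  have e4 : v x < v (Pool.Agent.N154.AR.dbl a b x) := by
    rw [e3, lt_div_iff₀ hv4p]
    nlinarith
  refine ⟨hQ, e4, ?_, ?_⟩
  · refine h.1.trans_le (mul_le_mul_of_nonneg_left ?_ hv4p.le)
    exact pow_le_pow_left₀ hvx.le e4.le 2
  · refine h.2.trans_le (mul_le_mul_of_nonneg_left ?_ hv4p.le)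
    exact pow_le_pow_left₀ hvx.le e4.le 3

theorem exists_big {v : AbsoluteValue κ ℝ} (h2 : v 2 < 1) (h20 : (2 : κ) ≠ 0) (a b : κ) :
    ∃ x, Big v a b x := by
  have hv2 : 0 < v 2 := v.pos h20
  have h4 : (4 : κ) = 2 * 2 := by norm_num
  have hv4p : 0 < v 4 := v.pos (by rw [h4]; exact mul_ne_zero h20 h20)
  have h3 : 1 < (v 2)⁻¹ := (one_lt_inv₀ hv2).2 h2
  obtain ⟨n, hn⟩ := pow_unbounded_of_one_lt (max 1 (max (v a / v 4) (v b / v 4))) h3
  set N := (v 2)⁻¹ ^ n with hN
  have h5 : 1 < N := (le_max_left _ _).trans_lt hn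
  have h6 : v a / v 4 < N := ((le_max_left _ _).trans (le_max_right _ _)).trans_lt hn
  have h7 : v b / v 4 < N := ((le_max_right _ _).trans (le_max_right _ _)).trans_lt hn
  refine ⟨(2⁻¹) ^ n, ?_, ?_⟩
  · rw [map_pow, map_inv₀, ← hN, mul_comm, ← div_lt_iff₀ hv4p]
    nlinarith
  · rw [map_pow, map_inv₀, ← hN, mul_comm, ← div_lt_iff₀ hv4p]
    refine h7.trans ?_
    calc N = N ^ 1 := (pow_one N).symm
      _ < N ^ 3 := pow_lt_pow_right₀ h5 (by norm_num)

/-- the double of a point -/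
theorem dbl_point {L : Type} [Field L] (h20 : (2 : L) ≠ 0) {a b x : L}
    (hQ : 4 * x ^ 3 - a * x - b ≠ 0) (h : ∃ y, y ^ 2 = 4 * x ^ 3 - a * x - b) :
    ∃ y, y ^ 2 = 4 * (dbl a b x) ^ 3 - a * dbl a b x - b := by
  obtain ⟨y, hy⟩ := h
  have hy0 : y ≠ 0 := by
    rintro rfl
    apply hQ
    rw [← hy]
    ring
  have h40 : (4 : L) ≠ 0 := by
    rw [show (4 : L) = 2 * 2 by norm_num]; exact mul_ne_zero h20 h20
  set l : L := (12 * x ^ 2 - a) / (2 * y) with hl
  have h1 : 2 * y * l = 12 * x ^ 2 - a := by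
    rw [hl]
    field_simp
  have h2 : 4 * dbl a b x = l ^ 2 - 8 * x := by
    have h160 : (16 : L) ≠ 0 := by
      rw [show (16 : L) = 4 * 4 by norm_num]; exact mul_ne_zero h40 h40
    have e1 : l ^ 2 = (12 * x ^ 2 - a) ^ 2 / (4 * (4 * x ^ 3 - a * x - b)) := by
      rw [hl, div_pow, mul_pow, hy]
      norm_num
    unfold dbl
    rw [e1]
    obtain ⟨q, hq⟩ : ∃ q, q = 4 * x ^ 3 - a * x - b := ⟨_, rfl⟩
    rw [← hq] at hQ ⊢
    field_simp
    rw [hq]
    ring
  refine ⟨-(y + l * (dbl a b x - x)), ?_⟩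
  set x' := dbl a b x
  linear_combination hy + (x' - x) * h1 - (x' - x) ^ 2 * h2

theorem dbl_map {κ L : Type} [Field κ] [Field L] (g : κ →+* L) (a b x : κ) :
    g (dbl a b x) = dbl (g a) (g b) (g x) := by
  have h4 : g 4 = 4 := map_ofNat g 4
  have h8 : g 8 = 8 := map_ofNat g 8
  have h16 : g 16 = 16 := map_ofNat g 16
  have h32 : g 32 = 32 := map_ofNat g 32
  simp [dbl, h4, h8, h16, h32]

theorem Q_map {κ L : Type} [Field κ] [Field L] (g : κ →+* L) (a b x : κ) :
    4 * g x ^ 3 - g a * g x - g b = g (4 * x ^ 3 - a * x - b) := by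
  have h4 : g 4 = 4 := map_ofNat g 4
  simp [h4]

theorem sq_map {κ L : Type} [Field κ] [Field L] (g : κ →+* L) (c : κ) (f : κ[X])
    (hf : f = X ^ 2 - C c) (y : L) : (f.map g).eval y = y ^ 2 - g c := by
  simp [hf]

/-- **Infinitely many points over a finite extension.** -/
theorem exists_points (κ : Type) [Field κ] [NumberField κ] (a b : κ) :
    ∃ (L : Type) (_ : Field L) (_ : CharZero L) (_ : Algebra κ L) (_ : FiniteDimensional κ L)
      (x y : ℕ → L), Function.Injective x ∧
      ∀ k, y k ^ 2 = 4 * x k ^ 3 - algebraMap κ L a * x k - algebraMap κ L b := by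
  obtain ⟨v, hv, h2⟩ := exists_abv2 κ
  have h20 : (2 : κ) ≠ 0 := two_ne_zero
  obtain ⟨x0, hx0⟩ := exists_big h2 h20 a b
  let X : ℕ → κ := fun k => Nat.rec x0 (fun _ x => dbl a b x) k
  have hX : ∀ k, Big v a b (X k) := by
    intro k
    induction k with
    | zero => exact hx0
    | succ k ih => exact (ih.dbl hv h2 h20).2.2
  have hmono : StrictMono fun k => v (X k) :=
    strictMono_nat_of_lt_succ fun k => ((hX k).dbl hv h2 h20).2.1
  have hinj : Function.Injective X := fun i j hij => hmono.injective (by simp only [hij])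
  set f : κ[X] := Polynomial.X ^ 2 - C (4 * x0 ^ 3 - a * x0 - b) with hf
  let L := f.SplittingField
  have : CharZero L := charZero_of_injective_algebraMap (algebraMap κ L).injective
  have hroot : ∃ y : L, y ^ 2 = algebraMap κ L (4 * x0 ^ 3 - a * x0 - b) := by
    have hdeg : (f.map (algebraMap κ L)).degree ≠ 0 := by
      rw [degree_map, hf, degree_X_pow_sub_C two_pos]
      norm_num
    obtain ⟨y, hy⟩ := (SplittingField.splits f).exists_eval_eq_zero hdeg
    refine ⟨y, ?_⟩
    have hy' := sq_map (algebraMap κ L) _ f hf y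
    rw [hy] at hy'
    exact (sub_eq_zero.1 hy'.symm)
  have h20L : (2 : L) ≠ 0 := two_ne_zero
  have hmapQ : ∀ k, 4 * algebraMap κ L (X k) ^ 3 - algebraMap κ L a * algebraMap κ L (X k) -
      algebraMap κ L b = algebraMap κ L (4 * X k ^ 3 - a * X k - b) := fun k =>
    Q_map (algebraMap κ L) a b (X k)
  have hdblm : ∀ k, algebraMap κ L (X (k + 1)) =
      dbl (algebraMap κ L a) (algebraMap κ L b) (algebraMap κ L (X k)) := fun k =>
    dbl_map (algebraMap κ L) a b (X k)
  have hy : ∀ k, ∃ y : L, y ^ 2 = 4 * algebraMap κ L (X k) ^ 3 -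
      algebraMap κ L a * algebraMap κ L (X k) - algebraMap κ L b := by
    intro k
    induction k with
    | zero =>
      obtain ⟨y, hy⟩ := hroot
      refine ⟨y, ?_⟩
      rw [hmapQ 0]
      exact hy
    | succ k ih =>
      rw [hdblm k]
      refine dbl_point h20L ?_ ih
      rw [hmapQ k]
      exact (_root_.map_ne_zero _).2 ((hX k).dbl hv h2 h20).1
  choose y hy' using hy
  exact ⟨L, inferInstance, this, inferInstance, inferInstance, fun k => algebraMap κ L (X k), y,
    (algebraMap κ L).injective.comp hinj, hy'⟩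

end Pool.Agent.N154.AR
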