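import Pool.Agent.N154.AR.Spec
import Pool.Agent.N154.AR.Pts
import Pool.Agent.N154.AR.Defs

/-! Infinitely many rational points over a finite extension. -/

set_option autoImplicit false

open Polynomial
open scoped LinearAlgebra.Projectivization

namespace Pool.Agent.N154.AR

variable {N : ℕ} {ι ι' : Type}

theorem eval_smul_form {K L : Type} [Field K] [Field L] [Algebra K L]
    {G : MvPolynomial (Fin (N + 1)) K} (hG : ∃ d, G.IsHomogeneous d) {c : L} (hc : c ≠ 0)
    (v : Fin (N + 1) → L) : MvPolynomial.aeval (c • v) G = 0 ↔ MvPolynomial.aeval v G = 0 := by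
  obtain ⟨d, hd⟩ := hG
  have h1 : MvPolynomial.aeval (c • v) G = c ^ d * MvPolynomial.aeval v G := by
    rw [MvPolynomial.aeval_def, MvPolynomial.aeval_def, MvPolynomial.eval₂_eq,
      MvPolynomial.eval₂_eq, Finset.mul_sum]
    refine Finset.sum_congr rfl fun s hs => ?_
    have h3 : ∏ i ∈ s.support, (c • v) i ^ s i = c ^ d * ∏ i ∈ s.support, v i ^ s i := by
      simp only [Pi.smul_apply, smul_eq_mul, mul_pow]
      rw [Finset.prod_mul_distrib, Finset.prod_pow_eq_pow_sum]
      congr 2
      have := hd (MvPolynomial.mem_support_iff.1 hs)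
      rw [← this]
      have h4 := congrArg (fun f => f s) (Finsupp.degree_eq_weight_one (σ := Fin (N + 1)) (R := ℕ))
      exact h4
    rw [h3]
    ring
  rw [h1, mul_eq_zero]
  constructor
  · rintro (h | h)
    · exact absurd h (pow_ne_zero _ hc)
    · exact h
  · exact Or.inr

theorem ECur.infinite {K κ : Type} [Field K] [Field κ] [NumberField κ] [Algebra K κ]
    [FiniteDimensional K κ] {F : ι → MvPolynomial (Fin (N + 1)) K}
    {H : ι' → MvPolynomial (Fin (N + 1)) K} (hF : ∀ i, ∃ d, (F i).IsHomogeneous d)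
    (hH : ∀ i, ∃ d, (H i).IsHomogeneous d) {a b : κ}
    {p : Fin (N + 1) → κ[X][X]} (h : ECur (algebraMap K κ) F H a b p) :
    ∃ (L : Type) (_ : Field L) (_ : Algebra K L) (_ : FiniteDimensional K L),
      (RatPts F L \ RatPts H L).Infinite := by
  classical
  obtain ⟨L, _, _, _, _, x, y, hx, hxy⟩ := exists_points κ a b
  let _ : Algebra K L := ((algebraMap κ L).comp (algebraMap K κ)).toAlgebra
  have htower : IsScalarTower K κ L := IsScalarTower.of_algebraMap_eq fun _ => rfl
  have hfin : FiniteDimensional K L := Module.Finite.trans κ L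
  refine ⟨L, inferInstance, inferInstance, hfin, ?_⟩
  obtain ⟨h1, ⟨i0, hne⟩, j, j', m, m', hc⟩ := h.map (algebraMap κ L)
  set a' := algebraMap κ L a
  set b' := algebraMap κ L b
  set q : Fin (N + 1) → L[X][X] := fun j => (p j).map (mapRingHom (algebraMap κ L)) with hq
  have hφ : (algebraMap κ L).comp (algebraMap K κ) = algebraMap K L := rfl
  rw [hφ] at h1 hne
  let v : ℕ → Fin (N + 1) → L := fun k i => evalEval (x k) (y k) (q i)
  have hval : ∀ (G : MvPolynomial (Fin (N + 1)) K) (k : ℕ),
      MvPolynomial.aeval (v k) G = evalEval (x k) (y k) (sub2 (algebraMap K L) q G) := fun G k => by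
    rw [sub2_eval, MvPolynomial.aeval_def]
  -- linear forms
  have hlin : ∀ c : L × L, c ≠ 0 →
      {k | c.1 * v k j + c.2 * v k j' = 0}.Finite := by
    intro c hc0
    have h2 : (C (C c.1) * q j + C (C c.2) * q j') %ₘ Wq a' b' ≠ 0 := by
      intro h0
      rw [← smul_eq_C_mul, ← smul_eq_C_mul, add_modByMonic, smul_modByMonic, smul_modByMonic,
        smul_eq_C_mul, smul_eq_C_mul] at h0
      have h3 : ∀ t, c.1 * cf (q j %ₘ Wq a' b') t + c.2 * cf (q j' %ₘ Wq a' b') t = 0 := by
        intro t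
        have := congrArg (fun D => cf D t) h0
        simpa [cf] using this
      have e1 := h3 m
      have e2 := h3 m'
      by_cases hc1 : c.1 = 0
      · have hc2 : c.2 ≠ 0 := fun h4 => hc0 (Prod.ext hc1 h4)
        rw [hc1, zero_mul, zero_add] at e1 e2
        have e3 := (mul_eq_zero.1 e1).resolve_left hc2
        have e4 := (mul_eq_zero.1 e2).resolve_left hc2
        apply hc
        rw [e3, e4]
        ring
      · apply hc
        apply mul_left_cancel₀ hc1
        linear_combination (cf (q j' %ₘ Wq a' b') m') * e1 - (cf (q j' %ₘ Wq a' b') m) * e2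
    refine (zeros_fin a' b' h2 hx hxy).subset fun k hk => ?_
    simp only [Set.mem_ofPred_eq] at hk ⊢
    rw [evalEval_add, evalEval_mul, evalEval_mul]
    simpa [evalEval_C, v] using hk
  have hHfin : {k | MvPolynomial.aeval (v k) (H i0) = 0}.Finite := by
    refine (zeros_fin a' b' hne hx hxy).subset fun k hk => ?_
    rw [Set.mem_ofPred_eq, ← hval]
    exact hk
  have hv0 : {k | v k = 0}.Finite := by
    refine (hlin (1, 0) (by simp)).subset fun k hk => ?_
    have hk' : v k = 0 := hk
    simp [hk']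
  have hvF : ∀ i k, MvPolynomial.aeval (v k) (F i) = 0 := fun i k => by
    rw [hval, eval_rem a' b' _ _ (hxy k), h1 i]
    simp [evalEval]
  -- the points
  set T : Set ℕ := {k | v k ≠ 0 ∧ MvPolynomial.aeval (v k) (H i0) ≠ 0} with hT
  have hTinf : T.Infinite := by
    have h2 : Tᶜ.Finite := by
      refine (hv0.union hHfin).subset fun k hk => ?_
      simp only [hT, Set.mem_compl_iff, Set.mem_ofPred_eq, not_and_or, not_not] at hk
      exact hk
    intro h3
    exact Set.infinite_univ (α := ℕ) (by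
      have := h3.union h2
      rwa [Set.union_compl_self] at this)
  let P : ℕ → ℙ L (Fin (N + 1) → L) := fun k =>
    if hk : v k ≠ 0 then Projectivization.mk L (v k) hk else Projectivization.mk L 1 one_ne_zero
  have hP : ∀ k ∈ T, ∃ c : L, c ≠ 0 ∧ v k = c • (P k).rep := by
    intro k hk
    have h2 : P k = Projectivization.mk L (v k) hk.1 := dif_pos hk.1
    obtain ⟨c, hc⟩ := Projectivization.exists_smul_eq_mk_rep L (v k) hk.1
    refine ⟨(c⁻¹ : Lˣ), Units.ne_zero _, ?_⟩
    rw [h2, ← hc]
    simp [Units.smul_def]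
  intro hcon
  have h3 : ∀ k ∈ T, P k ∈ RatPts F L \ RatPts H L := by
    intro k hk
    obtain ⟨c, hc, hcv⟩ := hP k hk
    refine ⟨fun i => ?_, fun h4 => hk.2 ?_⟩
    · change MvPolynomial.aeval (P k).rep (F i) = 0
      rw [← eval_smul_form (hF i) hc, ← hcv]
      exact hvF i k
    · rw [hcv, eval_smul_form (hH i0) hc]
      exact h4 i0
  obtain ⟨Q, hQ, hQinf⟩ : ∃ Q, Q ∈ RatPts F L \ RatPts H L ∧ {k ∈ T | P k = Q}.Infinite := by
    by_contra hno
    push Not at hno
    apply hTinf
    have h4 : T ⊆ ⋃ Q ∈ RatPts F L \ RatPts H L, {k ∈ T | P k = Q} := by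
      intro k hk
      simp only [Set.mem_iUnion]
      exact ⟨P k, h3 k hk, hk, rfl⟩
    exact (hcon.biUnion fun Q hQ => hno Q hQ).subset h4
  -- a linear form
  obtain ⟨c, hc0, hcQ⟩ : ∃ c : L × L, c ≠ 0 ∧ c.1 * Q.rep j + c.2 * Q.rep j' = 0 := by
    by_cases hj : Q.rep j = 0 ∧ Q.rep j' = 0
    · exact ⟨(1, 0), by simp, by simp [hj.1]⟩
    · refine ⟨(Q.rep j', -Q.rep j), fun h4 => hj ?_, by ring⟩
      have h5 := congrArg Prod.fst h4
      have h6 := congrArg Prod.snd h4
      exact ⟨neg_eq_zero.1 h6, h5⟩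
  apply hQinf
  refine (hlin c hc0).subset fun k hk => ?_
  obtain ⟨hkT, hkQ⟩ := hk
  obtain ⟨d, hd, hdv⟩ := hP k hkT
  rw [hkQ] at hdv
  simp only [Set.mem_ofPred_eq]
  rw [hdv, Pi.smul_apply, Pi.smul_apply, smul_eq_mul, smul_eq_mul]
  linear_combination d * hcQ

end Pool.Agent.N154.AR
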