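import Pool.Agent.N154.AR.Cur
import Pool.Agent.N154.AR.Inf

/-! Doubly periodic curves give infinitely many rational points. -/

set_option autoImplicit false

open scoped LinearAlgebra.Projectivization

namespace Pool.Agent.N154.AR

open Pool.Agent.N154.GG

variable {n : ℕ} {ι ι' : Type} {K : Type} [Field K] [NumberField K]

theorem numberField_of (κ : Type) [Field κ] [Algebra K κ] [FiniteDimensional K κ] :
    NumberField κ := by
  have : CharZero κ := charZero_of_injective_algebraMap (algebraMap K κ).injective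
  have h2 : FiniteDimensional ℚ κ := Module.Finite.trans K κ
  exact ⟨⟩

/-- **Spreading out.** -/
theorem exists_ecur_nf (σ : K →+* ℂ) {F : ι → MvPolynomial (Fin (n + 1)) K}
    {H : ι' → MvPolynomial (Fin (n + 1)) K} (hF : ∀ i, ∃ d, (F i).IsHomogeneous d)
    (hH : ∀ i, ∃ d, (H i).IsHomogeneous d) {g : ℂ → ℙ ℂ (Fin (n + 1) → ℂ)} (hg : HolMap g)
    {L : PeriodPair} (hper : ∀ l ∈ L.lattice, ∀ z, g (z + l) = g z)
    (hgF : ∀ z i, MvPolynomial.eval₂ σ (g z).rep (F i) = 0)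
    (hgH : ∃ z i, MvPolynomial.eval₂ σ (g z).rep (H i) ≠ 0) (hnc : ¬ ∀ z w, g z = g w) :
    ∃ (κ : Type) (_ : Field κ) (_ : NumberField κ) (_ : Algebra K κ) (_ : FiniteDimensional K κ)
      (a b : κ) (p : Fin (n + 1) → Polynomial (Polynomial κ)),
      ECur (algebraMap K κ) F H a b p := by
  obtain ⟨p, hp, -⟩ := exists_ecur σ hF hH hg hper hgF hgH hnc
  let _ : Algebra K ℂ := σ.toAlgebra
  have hp' : ECur (algebraMap K ℂ) F H L.g₂ L.g₃ p := hp
  obtain ⟨κ, _, _, _, a, b, q, hq⟩ := hp'.spec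
  exact ⟨κ, inferInstance, numberField_of (K := K) κ, inferInstance, inferInstance, a, b, q, hq⟩

theorem exists_infinite (σ : K →+* ℂ) {F : ι → MvPolynomial (Fin (n + 1)) K}
    {H : ι' → MvPolynomial (Fin (n + 1)) K} (hF : ∀ i, ∃ d, (F i).IsHomogeneous d)
    (hH : ∀ i, ∃ d, (H i).IsHomogeneous d) {g : ℂ → ℙ ℂ (Fin (n + 1) → ℂ)} (hg : HolMap g)
    {L : PeriodPair} (hper : ∀ l ∈ L.lattice, ∀ z, g (z + l) = g z)
    (hgF : ∀ z i, MvPolynomial.eval₂ σ (g z).rep (F i) = 0)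
    (hgH : ∃ z i, MvPolynomial.eval₂ σ (g z).rep (H i) ≠ 0) (hnc : ¬ ∀ z w, g z = g w) :
    ∃ (E : Type) (_ : Field E) (_ : Algebra K E) (_ : FiniteDimensional K E),
      (RatPts F E \ RatPts H E).Infinite := by
  obtain ⟨κ, _, _, _, _, a, b, q, hq⟩ := exists_ecur_nf σ hF hH hg hper hgF hgH hnc
  exact hq.infinite hF hH

end Pool.Agent.N154.AR
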