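import Pool.Agent.N154.AR.Back
import Pool.Agent.N154.AR.Main
import Pool.Agent.N154.AR.Desc

/-! Curves of genus at most one and automorphisms and embeddings. -/

set_option autoImplicit false

open Filter Topology Set Polynomial
open scoped LinearAlgebra.Projectivization

namespace Pool.Agent.N154.AR

open Pool.Agent.N155 Pool.Agent.N154.GG

variable {n : ℕ} {ι ι' : Type}

/-- conjugates of forms which vanish on all entire curves -/
theorem van_conj {K : Type} [Field K] (σ : K →+* ℂ) {F : ι → MvPolynomial (Fin (n + 1)) K}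
    (hF : ∀ i, ∃ d, (F i).IsHomogeneous d) {G : MvPolynomial (Fin (n + 1)) ℂ} {d : ℕ}
    (hd : G.IsHomogeneous d)
    (hG : ∀ f : ℂ → ℙ ℂ (Fin (n + 1) → ℂ), HolMap f →
      (∀ z i, MvPolynomial.eval₂ σ (f z).rep (F i) = 0) → (¬ ∀ z w, f z = f w) →
      ∀ z, MvPolynomial.eval (f z).rep G = 0)
    (γ : ℂ ≃+* ℂ) (hγ : ∀ c : K, γ (σ c) = σ c) {g : ℂ → ℙ ℂ (Fin (n + 1) → ℂ)} (hg : HolMap g)
    {L : PeriodPair} (hper : ∀ l ∈ L.lattice, ∀ z, g (z + l) = g z)
    (hgF : ∀ z i, MvPolynomial.eval₂ σ (g z).rep (F i) = 0) (hnc : ¬ ∀ z w, g z = g w) (z : ℂ) :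
    MvPolynomial.eval (g z).rep (MvPolynomial.map (γ : ℂ →+* ℂ) G) = 0 := by
  have hH : ∀ i : Unit, ∃ d, ((fun _ : Unit => (1 : MvPolynomial (Fin (n + 1)) K)) i).IsHomogeneous
      d := fun _ => ⟨0, MvPolynomial.isHomogeneous_one _ _⟩
  obtain ⟨p, hp, hpc⟩ := exists_ecur σ hF hH hg hper hgF ⟨0, (), by
    simp⟩ hnc
  have hp' := hp.map (γ.symm : ℂ →+* ℂ)
  have hσ : (γ.symm : ℂ →+* ℂ).comp σ = σ := RingHom.ext fun c => by
    simp only [RingHom.comp_apply, RingEquiv.coe_toRingHom]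
    rw [RingEquiv.symm_apply_eq]
    exact (hγ c).symm
  rw [hσ] at hp'
  obtain ⟨f, hf, -, hfF, -, hfn, hfs⟩ := hp'.curve hF hH
  refine form_all hg (hd.map _) ?_ z
  filter_upwards [hpc, codis_lattice L] with w hw hwL
  obtain ⟨c, hc, hcw⟩ := hw
  have e1 := L.derivWeierstrassP_sq w hwL
  set v : Fin (n + 1) → ℂ := fun j => evalEval (L.weierstrassP w) (L.derivWeierstrassP w) (p j)
    with hv
  have hvc : v = c • (g w).rep := funext hcw
  have hv0 : v ≠ 0 := by
    rw [hvc]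
    exact smul_ne_zero hc (g w).rep_nonzero
  have hev : (fun j => evalEval (γ.symm (L.weierstrassP w)) (γ.symm (L.derivWeierstrassP w))
      ((p j).map (mapRingHom (γ.symm : ℂ →+* ℂ)))) = fun j => γ.symm (v j) := by
    funext j
    exact Polynomial.map_mapRingHom_evalEval (γ.symm : ℂ →+* ℂ) (p j) _ _
  obtain ⟨t, c', hc', hcf⟩ := hfs (γ.symm (L.weierstrassP w)) (γ.symm (L.derivWeierstrassP w))
    (by
      have := congrArg γ.symm e1
      simpa [map_ofNat] using this)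
    (by
      have e2 : (fun j => γ.symm (v j)) ≠ 0 := by
        intro h0
        apply hv0
        funext j
        have := congrFun h0 j
        simp only [Pi.zero_apply] at this ⊢
        exact (map_eq_zero_iff _ γ.symm.injective).1 this
      rw [hev]
      exact e2)
  have e4 : (fun j => γ.symm (v j)) = c' • (f t).rep := by
    rw [← hev]
    exact hcf
  have e5 : MvPolynomial.eval (fun j => γ.symm (v j)) G = 0 := by
    rw [e4, eval_smul' hd, hG f hf hfF hfn t, mul_zero]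
  have e6 : MvPolynomial.eval v (MvPolynomial.map (γ : ℂ →+* ℂ) G) = 0 := by
    have e7 := congrArg γ e5
    rw [map_zero] at e7
    rw [MvPolynomial.eval_map]
    have e8 := MvPolynomial.eval₂_comp_left (γ : ℂ →+* ℂ) (RingHom.id ℂ) (fun j => γ.symm (v j)) G
    rw [RingHom.comp_id] at e8
    have e9 : (γ : ℂ →+* ℂ) ∘ (fun j => γ.symm (v j)) = v := by
      funext j
      simp
    rw [e9] at e8
    rw [← e8]
    exact e7
  rw [hvc, eval_smul' (hd.map _)] at e6
  exact (mul_eq_zero.1 e6).resolve_left (pow_ne_zero _ hc)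

/-- **All embeddings see the same curves of genus at most one.** -/
theorem other_embedding {K : Type} [Field K] [NumberField K] (σ τ : K →+* ℂ)
    {F : ι → MvPolynomial (Fin (n + 1)) K} {H : ι' → MvPolynomial (Fin (n + 1)) K}
    (hF : ∀ i, ∃ d, (F i).IsHomogeneous d) (hH : ∀ i, ∃ d, (H i).IsHomogeneous d)
    {g : ℂ → ℙ ℂ (Fin (n + 1) → ℂ)} (hg : HolMap g)
    {L : PeriodPair} (hper : ∀ l ∈ L.lattice, ∀ z, g (z + l) = g z)
    (hgF : ∀ z i, MvPolynomial.eval₂ σ (g z).rep (F i) = 0)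
    (hgH : ∃ z i, MvPolynomial.eval₂ σ (g z).rep (H i) ≠ 0) (hnc : ¬ ∀ z w, g z = g w) :
    ∃ f : ℂ → ℙ ℂ (Fin (n + 1) → ℂ), HolMap f ∧
      (∃ L : PeriodPair, ∀ l ∈ L.lattice, ∀ z, f (z + l) = f z) ∧
      (∀ z i, MvPolynomial.eval₂ τ (f z).rep (F i) = 0) ∧
      (∃ z i, MvPolynomial.eval₂ τ (f z).rep (H i) ≠ 0) ∧ ¬ ∀ z w, f z = f w := by
  obtain ⟨κ, _, _, _, _, a, b, q, hq⟩ := exists_ecur_nf σ hF hH hg hper hgF hgH hnc
  let _ : Algebra K ℂ := τ.toAlgebra
  have : Algebra.IsAlgebraic K κ := Algebra.IsAlgebraic.of_finite K κ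
  let e : κ →ₐ[K] ℂ := IsAlgClosed.lift
  have h1 := hq.map (e : κ →+* ℂ)
  have h2 : (e : κ →+* ℂ).comp (algebraMap K κ) = τ := RingHom.ext fun c => e.commutes c
  rw [h2] at h1
  obtain ⟨f, hf, hL, h3, h4, h5, -⟩ := h1.curve hF hH
  exact ⟨f, hf, hL, h3, h4, h5⟩

end Pool.Agent.N154.AR
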