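import Pool.Agent.N154.AR.Inv
import Pool.Agent.N154.DD.KDefs
import Pool.Agent.N154.GG.Geo2

/-! The Kobayashi pseudodistance is zero along entire curves. -/

set_option autoImplicit false

open Filter Topology Metric Set
open scoped LinearAlgebra.Projectivization

namespace Pool.Agent.N154.AR

open Pool.Agent.N154.GG

variable {n : ℕ}

theorem kob_zero {X : Set (Fin (n + 1) → ℂ)} {f : ℂ → ℙ ℂ (Fin (n + 1) → ℂ)} (hf : HolMap f)
    (hX : ∀ z, (f z).rep ∈ X) (z w : ℂ) : kobayashi X (f z) (f w) = 0 := by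
  have h1 : ∀ R : ℝ, 1 < R → IsChainLength X (f z) (f w) (poincareDist 0 ((1 / R : ℝ) : ℂ)) := by
    intro R hR
    have hR0 : 0 < R := by linarith
    refine ⟨1, ![f z, f w], fun _ ζ => f (z + ζ * ((R : ℂ) * (w - z))), fun _ => 0,
      fun _ => ((1 / R : ℝ) : ℂ), rfl, rfl, fun i => ⟨?_, fun ζ _ => hX _, mem_ball_self one_pos,
        ?_, ?_, ?_⟩, ?_⟩
    · intro ζ _
      obtain ⟨V, g, hV, hz, hd, hg⟩ := hf (z + ζ * ((R : ℂ) * (w - z)))
      refine ⟨(fun t => z + t * ((R : ℂ) * (w - z))) ⁻¹' V, fun t => g (z + t * ((R : ℂ) * (w - z))),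
        hV.preimage (by fun_prop), hz, ?_, fun t ht => hg _ ht⟩
      exact hd.comp (by fun_prop) fun t ht => ht
    · rw [mem_ball_zero_iff, Complex.norm_real, Real.norm_of_nonneg (by positivity),
        div_lt_one hR0]
      exact hR
    · have : i = 0 := Subsingleton.elim _ _
      subst this
      simp
    · have : i = 0 := Subsingleton.elim _ _
      subst this
      have h2 : z + ((1 / R : ℝ) : ℂ) * ((R : ℂ) * (w - z)) = w := by
        have : (R : ℂ) ≠ 0 := by exact_mod_cast hR0.ne'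
        push_cast
        field_simp
        ring
      simp only [h2]
      rfl
    · simp
  have h2 : ∀ R : ℝ, 1 < R → poincareDist 0 ((1 / R : ℝ) : ℂ) =
      Real.log ((1 + 1 / R) / (1 - 1 / R)) := by
    intro R hR
    have hR0 : 0 < R := by linarith
    unfold poincareDist
    rw [zero_sub, norm_neg, Complex.norm_real, Real.norm_of_nonneg (by positivity), map_zero,
      zero_mul, sub_zero, norm_one, div_one]
  have h3 : Tendsto (fun R : ℝ => Real.log ((1 + 1 / R) / (1 - 1 / R))) atTop (𝓝 0) := by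
    have h4 : Tendsto (fun R : ℝ => 1 / R) atTop (𝓝 0) := by
      simpa using tendsto_inv_atTop_zero (𝕜 := ℝ)
    have h5 : Tendsto (fun R : ℝ => (1 + 1 / R) / (1 - 1 / R)) atTop (𝓝 ((1 + 0) / (1 - 0))) :=
      (tendsto_const_nhds.add h4).div (tendsto_const_nhds.sub h4) (by norm_num)
    have h6 := (Real.continuousAt_log (x := (1 + 0) / (1 - 0)) (by norm_num)).tendsto.comp h5
    simpa [Function.comp_def] using h6
  have h4 : Tendsto (fun R : ℝ => ENNReal.ofReal (Real.log ((1 + 1 / R) / (1 - 1 / R)))) atTop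
      (𝓝 0) := by
    have := ENNReal.tendsto_ofReal h3
    rwa [ENNReal.ofReal_zero] at this
  refine le_antisymm (ge_of_tendsto h4 ?_) zero_le
  filter_upwards [eventually_gt_atTop (1 : ℝ)] with R hR
  rw [← h2 R hR]
  exact iInf₂_le _ (h1 R hR)

theorem projDist_pos {p q : ℙ ℂ (Fin (n + 1) → ℂ)} (h : p ≠ q) : 0 < projDist p q := by
  unfold projDist
  rw [norm_pos_iff, sub_ne_zero]
  exact fun h1 => h (proj_ext h1)

end Pool.Agent.N154.AR
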