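import Pool.Agent.N154.AR.Cur

/-! Meromorphic coordinates define holomorphic maps to projective space. -/

set_option autoImplicit false

open Filter Topology Set
open scoped LinearAlgebra.Projectivization

namespace Pool.Agent.N154.AR

open Pool.Agent.N155 Pool.Agent.N154.GG

variable {n : ℕ}

/-- proportional vectors -/
def Par (u v : Fin (n + 1) → ℂ) : Prop := ∀ i j, u i * v j = u j * v i

theorem Par.smul {u v : Fin (n + 1) → ℂ} (h : Par u v) (hu : u ≠ 0) (hv : v ≠ 0) :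
    ∃ c : ℂ, c ≠ 0 ∧ u = c • v := by
  obtain ⟨j, hj⟩ := Function.ne_iff.1 hv
  obtain ⟨i, hi⟩ := Function.ne_iff.1 hu
  have hj' : v j ≠ 0 := hj
  have hi' : u i ≠ 0 := hi
  have huj : u j ≠ 0 := by
    intro h0
    have := h i j
    rw [h0, zero_mul] at this
    exact (mul_ne_zero hi' hj') this
  refine ⟨u j / v j, div_ne_zero huj hj', ?_⟩
  funext k
  rw [Pi.smul_apply, smul_eq_mul]
  field_simp
  exact h k j

theorem Par.mk_eq {u v : Fin (n + 1) → ℂ} (h : Par u v) (hu : u ≠ 0) (hv : v ≠ 0) :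
    Projectivization.mk ℂ u hu = Projectivization.mk ℂ v hv := by
  obtain ⟨c, hc, hcu⟩ := h.smul hu hv
  rw [Projectivization.mk_eq_mk_iff']
  exact ⟨c, hcu.symm⟩

theorem Par.of_smul {u v w : Fin (n + 1) → ℂ} {c d : ℂ} (hc : c ≠ 0) (hd : d ≠ 0)
    (h1 : w = c • u) (h2 : w = d • v) : Par u v := by
  intro i j
  have e1 := congrFun h1 i
  have e2 := congrFun h1 j
  have e3 := congrFun h2 i
  have e4 := congrFun h2 j
  simp only [Pi.smul_apply, smul_eq_mul] at e1 e2 e3 e4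
  apply mul_left_cancel₀ (mul_ne_zero hc hd)
  calc c * d * (u i * v j) = (c * u i) * (d * v j) := by ring
    _ = w i * w j := by rw [← e1, ← e4]
    _ = (c * u j) * (d * v i) := by rw [← e2, ← e3]; ring
    _ = c * d * (u j * v i) := by ring

/-- minors vanish in the limit -/
theorem par_lim {u v : ℂ → Fin (n + 1) → ℂ} {z : ℂ} (hu : ContinuousAt u z) (hv : ContinuousAt v z)
    (h : ∀ᶠ w in 𝓝[≠] z, Par (u w) (v w)) : Par (u z) (v z) := by
  intro i j
  have hc : ∀ k, ContinuousAt (fun w => u w k) z := fun k =>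
    (continuous_apply k).continuousAt.comp hu
  have hc' : ∀ k, ContinuousAt (fun w => v w k) z := fun k =>
    (continuous_apply k).continuousAt.comp hv
  have h1 : ContinuousAt (fun w => u w i * v w j) z := (hc i).mul (hc' j)
  have h2 : ContinuousAt (fun w => u w j * v w i) z := (hc j).mul (hc' i)
  have h3 : (fun w => u w i * v w j) =ᶠ[𝓝[≠] z] fun w => u w j * v w i := by
    filter_upwards [h] with w hw
    exact hw i j
  exact ((h1.eventuallyEq_nhds_iff_eventuallyEq_nhdsNE h2).1 h3).self_of_nhds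

/-- local coordinates without common zeros -/
theorem loc_mero {h : Fin (n + 1) → ℂ → ℂ} (hm : ∀ j, Meromorphic (h j))
    (h0 : ∃ j, ¬ ∀ᶠ z in codiscrete ℂ, h j z = 0) (z : ℂ) :
    ∃ G : ℂ → Fin (n + 1) → ℂ, (∀ j, AnalyticAt ℂ (fun w => G w j) z) ∧ G z ≠ 0 ∧
      ∀ᶠ w in 𝓝[≠] z, ∃ c : ℂ, c ≠ 0 ∧ (fun j => h j w) = c • G w := by
  classical
  obtain ⟨j0, hj0⟩ := h0
  obtain ⟨j1, -, hj1⟩ := Finset.exists_min_image Finset.univ (fun j => meromorphicOrderAt (h j) z)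
    ⟨j0, Finset.mem_univ _⟩
  have hfin0 : meromorphicOrderAt (h j0) z ≠ ⊤ := by
    intro ht
    rw [meromorphicOrderAt_eq_top_iff] at ht
    exact hj0 (mero_id (hm j0) ht.frequently)
  have hfin1 : meromorphicOrderAt (h j1) z ≠ ⊤ := by
    intro ht
    have := hj1 j0 (Finset.mem_univ _)
    rw [ht, top_le_iff] at this
    exact hfin0 this
  obtain ⟨s, hs⟩ := WithTop.ne_top_iff_exists.1 hfin1
  have hG : ∀ j, ∃ u : ℂ → ℂ, AnalyticAt ℂ u z ∧
      (∀ᶠ w in 𝓝[≠] z, h j w = (w - z) ^ s * u w) ∧ (j = j1 → u z ≠ 0) := by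
    intro j
    by_cases ht : meromorphicOrderAt (h j) z = ⊤
    · refine ⟨fun _ => 0, analyticAt_const, ?_, fun hj => absurd (hj ▸ ht) hfin1⟩
      rw [meromorphicOrderAt_eq_top_iff] at ht
      filter_upwards [ht] with w hw
      rw [hw, mul_zero]
    · obtain ⟨t, ht⟩ := WithTop.ne_top_iff_exists.1 ht
      obtain ⟨g, hg, hg0, hg'⟩ := (meromorphicOrderAt_eq_int_iff (hm j z)).1 ht.symm
      have hst : s ≤ t := by
        have := hj1 j (Finset.mem_univ _)
        rw [← hs, ← ht] at this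
        exact WithTop.coe_le_coe.1 this
      obtain ⟨k, hk⟩ := Int.eq_ofNat_of_zero_le (sub_nonneg.2 hst)
      refine ⟨fun w => (w - z) ^ k * g w,
        ((analyticAt_id.sub analyticAt_const).pow k).mul hg, ?_, fun hj => ?_⟩
      · filter_upwards [hg', self_mem_nhdsWithin] with w hw hwz
        rw [hw, smul_eq_mul, ← mul_assoc]
        congr 1
        have h2 : w - z ≠ 0 := sub_ne_zero.2 hwz
        rw [← zpow_natCast, ← zpow_add₀ h2]
        congr 1
        omega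
      · have hts : t = s := by
          rw [hj] at ht
          exact WithTop.coe_injective (ht.trans hs.symm)
        have hk0 : k = 0 := by omega
        rw [hk0]
        simpa using hg0
  choose G hG1 hG2 hG3 using hG
  refine ⟨fun w j => G j w, hG1, fun hz => hG3 j1 rfl (congrFun hz j1), ?_⟩
  filter_upwards [eventually_all.2 hG2, self_mem_nhdsWithin] with w hw hwz
  exact ⟨(w - z) ^ s, zpow_ne_zero _ (sub_ne_zero.2 hwz), funext fun j => hw j⟩

/-- **Meromorphic coordinates.** -/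
theorem mero_proj {h : Fin (n + 1) → ℂ → ℂ} (hm : ∀ j, Meromorphic (h j))
    (h0 : ∃ j, ¬ ∀ᶠ z in codiscrete ℂ, h j z = 0) :
    ∃ f : ℂ → ℙ ℂ (Fin (n + 1) → ℂ), HolMap f ∧
      (∀ᶠ z in codiscrete ℂ, ∃ c : ℂ, c ≠ 0 ∧ (fun j => h j z) = c • (f z).rep) ∧
      ∀ w, (∀ j, AnalyticAt ℂ (h j) w) → (fun j => h j w) ≠ 0 →
        ∃ c : ℂ, c ≠ 0 ∧ (fun j => h j w) = c • (f w).rep := by
  choose G hG1 hG2 hG3 using loc_mero hm h0
  have hGc : ∀ z, ContinuousAt (G z) z := fun z => continuousAt_pi.2 fun j =>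
    (hG1 z j).continuousAt
  let f : ℂ → ℙ ℂ (Fin (n + 1) → ℂ) := fun z => Projectivization.mk ℂ (G z z) (hG2 z)
  have hfrep : ∀ z, ∃ c : ℂ, c ≠ 0 ∧ G z z = c • (f z).rep := fun z => by
    obtain ⟨c, hc⟩ := Projectivization.exists_smul_eq_mk_rep ℂ (G z z) (hG2 z)
    refine ⟨(c⁻¹ : ℂˣ), Units.ne_zero _, ?_⟩
    change _ = _ • (Projectivization.mk ℂ (G z z) (hG2 z)).rep
    rw [← hc]
    simp [Units.smul_def]
  -- other coordinates
  have key : ∀ (u : ℂ → Fin (n + 1) → ℂ) (w : ℂ), ContinuousAt u w →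
      (∀ᶠ t in 𝓝[≠] w, ∃ c : ℂ, c ≠ 0 ∧ (fun j => h j t) = c • u t) → Par (u w) (G w w) := by
    intro u w hu h1
    apply par_lim hu (hGc w)
    filter_upwards [h1, hG3 w] with t h2 h3
    obtain ⟨c, hc, hc'⟩ := h2
    obtain ⟨d, hd, hd'⟩ := h3
    exact Par.of_smul hc hd hc' hd'
  have hloc : ∀ z, ∀ᶠ w in 𝓝 z, G z w ≠ 0 ∧ (∀ j, AnalyticAt ℂ (fun t => G z t j) w) ∧
      Par (G z w) (G w w) := by
    intro z
    have e1 : ∀ᶠ w in 𝓝 z, G z w ≠ 0 := (hGc z).eventually_ne (hG2 z)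
    have e2 : ∀ᶠ w in 𝓝 z, ∀ j, AnalyticAt ℂ (fun t => G z t j) w :=
      eventually_all.2 fun j => (hG1 z j).eventually_analyticAt
    have e3 : ∀ᶠ w in 𝓝 z, w ≠ z → ∀ᶠ t in 𝓝[≠] w, ∃ c : ℂ, c ≠ 0 ∧
        (fun j => h j t) = c • G z t := by
      obtain ⟨V, hV, hVo, hzV⟩ := eventually_nhds_iff.1 (eventually_nhdsWithin_iff.1 (hG3 z))
      filter_upwards [hVo.mem_nhds hzV] with w hw hwz
      have h5 : V ∩ {z}ᶜ ∈ 𝓝 w :=
        inter_mem (hVo.mem_nhds hw) (isOpen_compl_singleton.mem_nhds hwz)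
      filter_upwards [mem_nhdsWithin_of_mem_nhds h5] with t ht
      exact hV t ht.1 ht.2
    filter_upwards [e1, e2, e3] with w h1 h2 h3
    refine ⟨h1, h2, ?_⟩
    by_cases hw : w = z
    · rw [hw]
      exact fun i j => mul_comm _ _
    · exact key (G z) w (continuousAt_pi.2 fun j => (h2 j).continuousAt) (h3 hw)
  refine ⟨f, fun z => ?_, ?_, fun w hw hw0 => ?_⟩
  · obtain ⟨V, hV, hVo, hzV⟩ := eventually_nhds_iff.1 (hloc z)
    refine ⟨V, G z, hVo, hzV, fun w hw => ?_, fun w hw => ?_⟩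
    · exact (differentiableAt_pi.2 fun j => ((hV w hw).2.1 j).differentiableAt).differentiableWithinAt
    · exact ⟨(hV w hw).1, ((hV w hw).2.2.mk_eq (hV w hw).1 (hG2 w)).symm⟩
  · apply codis_of_ev
    intro z
    filter_upwards [hG3 z, (hloc z).filter_mono nhdsWithin_le_nhds] with w h1 h2
    obtain ⟨c, hc, hc'⟩ := h1
    obtain ⟨d, hd, hd'⟩ := h2.2.2.smul h2.1 (hG2 w)
    obtain ⟨e, he, he'⟩ := hfrep w
    refine ⟨c * d * e, mul_ne_zero (mul_ne_zero hc hd) he, ?_⟩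
    rw [hc', hd', he', smul_smul, smul_smul]
  · have h1 : Par (fun j => h j w) (G w w) := key (fun t j => h j t) w
      (continuousAt_pi.2 fun j => (hw j).continuousAt)
      (Eventually.of_forall fun t => ⟨1, one_ne_zero, (one_smul _ _).symm⟩)
    obtain ⟨d, hd, hd'⟩ := h1.smul hw0 (hG2 w)
    obtain ⟨e, he, he'⟩ := hfrep w
    refine ⟨d * e, mul_ne_zero hd he, ?_⟩
    rw [hd', he', smul_smul]

/-- holomorphic maps which are equal on a codiscrete set are equal -/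
theorem hol_ext {f g : ℂ → ℙ ℂ (Fin (n + 1) → ℂ)} (hf : HolMap f) (hg : HolMap g)
    (h : ∀ᶠ z in codiscrete ℂ, f z = g z) (z : ℂ) : f z = g z := by
  obtain ⟨u, hu, hu'⟩ := loc hf z
  obtain ⟨v, hv, hv'⟩ := loc hg z
  have h1 : Par (u z) (v z) := by
    apply par_lim (continuousAt_pi.2 fun j => (hu j).continuousAt)
      (continuousAt_pi.2 fun j => (hv j).continuousAt)
    filter_upwards [hu'.filter_mono nhdsWithin_le_nhds, hv'.filter_mono nhdsWithin_le_nhds,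
      codis_ev h z] with w h1 h2 h3
    obtain ⟨c, hc, hc'⟩ := h1
    obtain ⟨d, hd, hd'⟩ := h2
    rw [h3] at hc'
    exact Par.of_smul hc hd hc' hd'
  obtain ⟨c, hc, hc'⟩ := hu'.self_of_nhds
  obtain ⟨d, hd, hd'⟩ := hv'.self_of_nhds
  have h2 : Par (f z).rep (g z).rep := by
    intro i j
    rw [hc', hd']
    simp only [Pi.smul_apply, smul_eq_mul]
    linear_combination c * d * h1 i j
  have h3 := h2.mk_eq (f z).rep_nonzero (g z).rep_nonzero
  rwa [(f z).mk_rep, (g z).mk_rep] at h3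

theorem hol_shift {f : ℂ → ℙ ℂ (Fin (n + 1) → ℂ)} (hf : HolMap f) (l : ℂ) :
    HolMap fun z => f (z + l) := by
  intro z
  obtain ⟨V, g, hV, hz, hd, hg⟩ := hf (z + l)
  refine ⟨(fun w => w + l) ⁻¹' V, fun w => g (w + l), hV.preimage (by fun_prop), hz, ?_,
    fun w hw => hg (w + l) hw⟩
  exact hd.comp (by fun_prop) fun w hw => hw

theorem per_of_coord {h : Fin (n + 1) → ℂ → ℂ} {f : ℂ → ℙ ℂ (Fin (n + 1) → ℂ)} (hf : HolMap f)
    (hc : ∀ᶠ z in codiscrete ℂ, ∃ c : ℂ, c ≠ 0 ∧ (fun j => h j z) = c • (f z).rep) {l : ℂ}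
    (hl : ∀ j z, h j (z + l) = h j z) (z : ℂ) : f (z + l) = f z := by
  refine hol_ext (hol_shift hf l) hf ?_ z
  filter_upwards [hc, codis_shift l hc] with w h1 h2
  obtain ⟨c, hc0, hc'⟩ := h1
  obtain ⟨d, hd0, hd'⟩ := h2
  have h3 : (fun j => h j (w + l)) = fun j => h j w := funext fun j => hl j w
  rw [h3, hc'] at hd'
  have h4 : Par (f (w + l)).rep (f w).rep := by
    refine Par.of_smul (w := c • (f w).rep) hd0 hc0 ?_ rfl
    exact hd'
  have h5 := h4.mk_eq (f (w + l)).rep_nonzero (f w).rep_nonzero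
  rwa [(f (w + l)).mk_rep, (f w).mk_rep] at h5

end Pool.Agent.N154.AR
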